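import Pool.Agent.W246.LG.Defs
import Pool.Prelude.Def_F_0680883d

set_option autoImplicit false

namespace Pool.Agent.W246.LG

open Nc949c4d7 Asymptotics Filter Finset
open scoped Pointwise

theorem frozen_of_goal (hgoal : S_goal) (ω : ℕ → ℝ) (hω : ω ~[atTop] (fun p ↦ 10 * Real.log p)) :
    HasLargeGapDilate ω := by
  obtain ⟨k0, hk0⟩ := hgoal 11 100 (by norm_num) (by norm_num)
  have hlog : Tendsto (fun p : ℕ => Real.log (p : ℝ)) atTop atTop :=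
    Real.tendsto_log_atTop.comp tendsto_natCast_atTop_atTop
  have h1 : ∀ᶠ p : ℕ in atTop, ‖(ω - fun p : ℕ ↦ 10 * Real.log p) p‖ ≤
      (1 / 10) * ‖10 * Real.log (p : ℝ)‖ := (hω.isLittleO).def (by norm_num)
  have h2 : ∀ᶠ p : ℕ in atTop, max 100 (k0 + 1 : ℝ) ≤ Real.log (p : ℝ) :=
    hlog.eventually_ge_atTop _
  have h3 : ∀ᶠ p : ℕ in atTop, Real.log (p : ℝ) ≤ (1 / 12) * (p : ℝ) := by
    have h4 : ∀ᶠ x : ℝ in atTop, ‖Real.log x‖ ≤ (1 / 12) * ‖x‖ :=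
      Real.isLittleO_log_id_atTop.def (by norm_num)
    have h5 := tendsto_natCast_atTop_atTop (R := ℝ) |>.eventually h4
    filter_upwards [h5] with p hp
    have h6 := (le_abs_self _).trans hp
    simpa using h6
  unfold HasLargeGapDilate
  filter_upwards [h1, h2, h3] with p h1 h2 h3 hp
  have hp' : Fact p.Prime := ⟨hp⟩
  have h100 : (100 : ℝ) ≤ Real.log p := (le_max_left _ _).trans h2
  have hk1 : (k0 + 1 : ℝ) ≤ Real.log p := (le_max_right _ _).trans h2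
  have hl0 : (0 : ℝ) ≤ Real.log p := by linarith
  simp only [Pi.sub_apply, Real.norm_eq_abs] at h1
  rw [abs_of_nonneg (by positivity : (0 : ℝ) ≤ 10 * Real.log p)] at h1
  obtain ⟨h4, h5⟩ := abs_le.mp h1
  have hω1 : 9 * Real.log p ≤ ω p := by linarith
  have hω2 : ω p ≤ 11 * Real.log p := by linarith
  have hω0 : 0 < ω p := by linarith
  refine ⟨by linarith, by linarith, ?_⟩
  intro A hA
  have hfl : (⌊ω p⌋₊ : ℝ) ≤ ω p := Nat.floor_le hω0.le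
  have hk : k0 ≤ ⌊ω p⌋₊ := by
    apply Nat.le_floor
    linarith
  have hkpos : (0 : ℝ) < (⌊ω p⌋₊ : ℝ) := by
    have : (0 : ℕ) < ⌊ω p⌋₊ := Nat.floor_pos.mpr (by linarith)
    exact_mod_cast this
  obtain ⟨c, hc, v, hv⟩ := hk0 ⌊ω p⌋₊ hk p (hfl.trans hω2) A hA
  refine ⟨Units.mk0 c hc, v, ?_⟩
  intro i hi hmem
  have hi' : (i : ℝ) < 100 * p / (⌊ω p⌋₊ : ℝ) := by
    have h6 : (i : ℝ) + 1 ≤ 100 * (p : ℝ) / ω p := by
      have h7 : i + 1 ≤ ⌊100 * (p : ℝ) / ω p⌋₊ := hi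
      have h8 : ((i + 1 : ℕ) : ℝ) ≤ (⌊100 * (p : ℝ) / ω p⌋₊ : ℝ) := by exact_mod_cast h7
      have h9 : (⌊100 * (p : ℝ) / ω p⌋₊ : ℝ) ≤ 100 * (p : ℝ) / ω p := Nat.floor_le (by positivity)
      push_cast at h8
      linarith
    have h7 : 100 * (p : ℝ) / ω p ≤ 100 * p / (⌊ω p⌋₊ : ℝ) := by
      apply div_le_div_of_nonneg_left (by positivity) hkpos hfl
    linarith
  obtain ⟨a, ha, hav⟩ := Finset.mem_smul_finset.mp hmem
  apply hv i hi' a ha
  rw [← hav]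
  rfl

end Pool.Agent.W246.LG
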