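import Pool.Agent.W246.LG.Step

set_option autoImplicit false

namespace Pool.Agent.W246.LG

open Finset

theorem exists_ell (K : ℕ) : ∃ l0 : ℕ, ∀ l ≥ l0, K * l ^ 2 ≤ 2 ^ l := by
  have h := tendsto_pow_const_div_const_pow_of_one_lt 2 (r := (2 : ℝ)) (by norm_num)
  have h1 : ∀ᶠ n : ℕ in Filter.atTop, (n : ℝ) ^ 2 / 2 ^ n < 1 / (K + 1) := by
    apply h.eventually_lt_const
    positivity
  obtain ⟨l0, hl0⟩ := Filter.eventually_atTop.mp h1
  refine ⟨l0, fun l hl => ?_⟩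
  have h2 := hl0 l hl
  rw [div_lt_div_iff₀ (by positivity) (by positivity)] at h2
  have h3 : ((K * l ^ 2 : ℕ) : ℝ) ≤ ((2 ^ l : ℕ) : ℝ) := by
    push_cast
    nlinarith [sq_nonneg (l : ℝ)]
  exact_mod_cast h3

/-- the real root -/
theorem exists_root (E k T : ℕ) (hE : 1 ≤ E) (hT : 1 ≤ T) (hk : T ^ E ≤ k) :
    ∃ x, T ≤ x ∧ x ^ E ≤ k ∧ k < (x + 1) ^ E := by
  have hTk : T ≤ k := (Nat.le_self_pow (by omega) T).trans hk
  refine ⟨Nat.findGreatest (fun x => x ^ E ≤ k) k, ?_, ?_, ?_⟩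
  · exact Nat.le_findGreatest hTk hk
  · exact Nat.findGreatest_spec (P := fun x => x ^ E ≤ k) hTk hk
  · by_contra hcon
    push Not at hcon
    set x := Nat.findGreatest (fun x => x ^ E ≤ k) k with hx
    have h1 : x + 1 ≤ k := (Nat.le_self_pow (by omega) _).trans hcon
    have h2 : x + 1 ≤ x := by
      conv_rhs => rw [hx]
      exact Nat.le_findGreatest h1 hcon
    omega

theorem struct_num (C D J V E0 E Cs l0 T : ℕ) (hC : 1 ≤ C) (hD : D = 2 * C + 1) (hJ : J = 3002)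
    (hV : V = D * (J + 2) + 1) (hE0 : E0 = 2 * V + 4) (hE : E = 1000 * (2 * E0 + 1))
    (hCs : Cs = C * (5 * 8 ^ V) * (V * (J + 2)))
    (hl0 : ∀ l ≥ l0, (4 * (D + 2 * (C + 10) + 1) * (E + 2) ^ 2) * l ^ 2 ≤ 2 ^ l)
    (hT : T = 2 ^ E + C * Cs + 2 * C * V * (J + 2) + 2 ^ (l0 + 1)) :
    ∀ k x : ℕ, T ≤ x → x ^ E ≤ k → k < (x + 1) ^ E → ∀ (p : ℕ) [Fact p.Prime], k < p →
    ∀ h : ℕ, 1 ≤ h → h ≤ C * k →
    (⟨fun j => x ^ (2 * E0 - 2 * j), fun j => x ^ (2 * E0 - 2 * j - 1),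
      fun j => x ^ (2 * E0 - 2 * j - 1) * (Nat.log 2 k + 1), D * (Nat.log 2 h + 1),
      2 * ((C + 10) * (Nat.log 2 k + 1)), Cs, V, D, J, x ^ E0, h, k⟩ : Par).Ok p ∧
      C * Cs ≤ x ∧ 2 * C * V * (J + 2) ≤ k ∧ C ≤ k := by
  intro k x hTx hxk hkx p hp hkp h hh1 hh2
  have hE1 : 1 ≤ E := by omega
  have key : ∀ a b c d : ℕ, a + b + c + d ≤ x → a ≤ x ∧ b ≤ x ∧ c ≤ x ∧ d ≤ x := by
    intro a b c d h; omega
  obtain ⟨hx1, hx2, hx3, hx4⟩ := key _ _ _ _ (hT ▸ hTx)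
  have h2x : 2 ≤ x := by
    have : 2 ^ 1 ≤ 2 ^ E := Nat.pow_le_pow_right (by norm_num) hE1
    omega
  have hxk' : x ≤ k := (Nat.le_self_pow (by omega) x).trans hxk
  have hCx : C ≤ x := by
    have h1 : 1 ≤ V * (J + 2) := Nat.mul_pos (by omega) (by omega)
    have h2 : C ≤ 2 * C * V * (J + 2) := by
      calc C ≤ C * (V * (J + 2)) := Nat.le_mul_of_pos_right C h1
        _ ≤ 2 * (C * (V * (J + 2))) := by omega
        _ = _ := by ring
    omega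
  have hk1 : k < x ^ (E + 1) := by
    calc k < (x + 1) ^ E := hkx
      _ ≤ (2 * x) ^ E := Nat.pow_le_pow_left (by omega) E
      _ = 2 ^ E * x ^ E := by rw [mul_pow]
      _ ≤ x * x ^ E := Nat.mul_le_mul_right _ hx1
      _ = x ^ (E + 1) := by rw [pow_succ]; ring
  have hh3 : h < x ^ (E + 2) := by
    calc h ≤ C * k := hh2
      _ < C * x ^ (E + 1) := Nat.mul_lt_mul_of_pos_left hk1 (by omega)
      _ ≤ x * x ^ (E + 1) := Nat.mul_le_mul_right _ hCx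
      _ = x ^ (E + 2) := by rw [pow_succ, pow_succ, pow_succ]; ring
  set l := Nat.log 2 x with hl
  have hl1 : l0 + 1 ≤ l := by
    have h1 := Nat.log_mono_right (b := 2) hx4
    rwa [Nat.log_pow (by norm_num)] at h1
  have hl2 : 2 ^ l ≤ x := Nat.pow_log_le_self 2 (by omega)
  have hl3 : x < 2 ^ (l + 1) := Nat.lt_pow_succ_log_self (by norm_num) x
  have hK := hl0 l (by omega)
  have hL2 : Nat.log 2 k + 1 ≤ (l + 1) * (E + 1) := by
    have h1 : k < 2 ^ ((l + 1) * (E + 1)) := by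
      calc k < x ^ (E + 1) := hk1
        _ ≤ (2 ^ (l + 1)) ^ (E + 1) := Nat.pow_le_pow_left hl3.le _
        _ = _ := by rw [← pow_mul]
    exact Nat.log_lt_of_lt_pow (by omega) h1
  have hLh : Nat.log 2 h + 1 ≤ (l + 1) * (E + 2) := by
    have h1 : h < 2 ^ ((l + 1) * (E + 2)) := by
      calc h < x ^ (E + 2) := hh3
        _ ≤ (2 ^ (l + 1)) ^ (E + 2) := Nat.pow_le_pow_left hl3.le _
        _ = _ := by rw [← pow_mul]
    exact Nat.log_lt_of_lt_pow (by omega) h1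
  have hlsq : (l + 1) ^ 2 ≤ 4 * l ^ 2 := by nlinarith
  have hWL : D * (Nat.log 2 h + 1) * (Nat.log 2 k + 1) ≤ x := by
    calc D * (Nat.log 2 h + 1) * (Nat.log 2 k + 1) ≤ D * ((l + 1) * (E + 2)) * ((l + 1) * (E + 1)) :=
          Nat.mul_le_mul (Nat.mul_le_mul_left _ hLh) hL2
      _ ≤ D * ((l + 1) * (E + 2)) * ((l + 1) * (E + 2)) := by gcongr; omega
      _ = D * (E + 2) ^ 2 * (l + 1) ^ 2 := by ring
      _ ≤ D * (E + 2) ^ 2 * (4 * l ^ 2) := Nat.mul_le_mul_left _ hlsq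
      _ = (4 * D * (E + 2) ^ 2) * l ^ 2 := by ring
      _ ≤ (4 * (D + 2 * (C + 10) + 1) * (E + 2) ^ 2) * l ^ 2 := by gcongr; omega
      _ ≤ 2 ^ l := hK
      _ ≤ x := hl2
  have hκx : 2 * ((C + 10) * (Nat.log 2 k + 1)) + 1 ≤ x := by
    calc 2 * ((C + 10) * (Nat.log 2 k + 1)) + 1 ≤ (2 * (C + 10) + 1) * (Nat.log 2 k + 1) := by
          nlinarith [Nat.zero_le (Nat.log 2 k)]
      _ ≤ (2 * (C + 10) + 1) * ((l + 1) * (E + 1)) := Nat.mul_le_mul_left _ hL2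
      _ ≤ (2 * (C + 10) + 1) * ((l + 1) ^ 2 * (E + 2) ^ 2) := by
          gcongr
          · nlinarith
          · nlinarith
      _ ≤ (2 * (C + 10) + 1) * ((4 * l ^ 2) * (E + 2) ^ 2) := by gcongr
      _ = (4 * (2 * (C + 10) + 1) * (E + 2) ^ 2) * l ^ 2 := by ring
      _ ≤ (4 * (D + 2 * (C + 10) + 1) * (E + 2) ^ 2) * l ^ 2 := by gcongr; omega
      _ ≤ 2 ^ l := hK
      _ ≤ x := hl2
  have hk2L : k < 2 ^ (Nat.log 2 k + 1) := Nat.lt_pow_succ_log_self (by norm_num) k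
  have hzk : ∀ i, x ^ (2 * E0 - 2 * i - 1) ≤ k := fun i =>
    (Nat.pow_le_pow_right (by omega) (by omega)).trans hxk
  refine ⟨⟨?_, rfl, ?_, ?_, ?_, ?_, ?_, ?_, ?_, ?_, ?_, ?_⟩, hx2, by omega, by omega⟩
  · show 1 ≤ D
    omega
  · intro i hi j hj
    show D * (Nat.log 2 h + 1) * (x ^ (2 * E0 - 2 * i - 1) * (Nat.log 2 k + 1)) ≤
      x ^ (2 * E0 - 2 * j)
    have hi' : i ≤ V := hi
    calc D * (Nat.log 2 h + 1) * (x ^ (2 * E0 - 2 * i - 1) * (Nat.log 2 k + 1)) =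
        (D * (Nat.log 2 h + 1) * (Nat.log 2 k + 1)) * x ^ (2 * E0 - 2 * i - 1) := by ring
      _ ≤ x * x ^ (2 * E0 - 2 * i - 1) := Nat.mul_le_mul_right _ hWL
      _ = x ^ (2 * E0 - 2 * i - 1 + 1) := by rw [pow_succ]; ring
      _ ≤ x ^ (2 * E0 - 2 * j) := Nat.pow_le_pow_right (by omega) (by omega)
  · intro i hi
    show (x ^ (2 * E0 - 2 * i - 1)).factorial ≤ 2 ^ (x ^ (2 * E0 - 2 * i - 1) * (Nat.log 2 k + 1))
    set z := x ^ (2 * E0 - 2 * i - 1) with hz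
    have hz1 : z ≤ 2 ^ (Nat.log 2 k + 1) := (hzk i).trans hk2L.le
    calc z.factorial ≤ z ^ z := Nat.factorial_le_pow z
      _ ≤ (2 ^ (Nat.log 2 k + 1)) ^ z := Nat.pow_le_pow_left hz1 z
      _ = _ := by rw [← pow_mul, mul_comm]
  · intro i hi
    show (((x ^ (2 * E0 - 2 * i - 1)).factorial : ℕ) : ZMod p) ≠ 0
    rw [Ne, ZMod.natCast_eq_zero_iff, hp.out.dvd_factorial]
    have := hzk i
    omega
  · intro j hj
    show 2 * ((C + 10) * (Nat.log 2 k + 1)) + 1 ≤ x ^ (2 * E0 - 2 * j)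
    have hj' : j ≤ V := hj
    exact hκx.trans (Nat.le_self_pow (by omega) x)
  · show h ≤ 2 ^ (2 * ((C + 10) * (Nat.log 2 k + 1)))
    calc h ≤ C * k := hh2
      _ ≤ k * k := Nat.mul_le_mul_right _ (by omega)
      _ ≤ 2 ^ (Nat.log 2 k + 1) * 2 ^ (Nat.log 2 k + 1) := Nat.mul_le_mul hk2L.le hk2L.le
      _ = 2 ^ (2 * (Nat.log 2 k + 1)) := by rw [← pow_add]; congr 1; ring
      _ ≤ _ := by
        apply Nat.pow_le_pow_right (by norm_num)
        apply Nat.mul_le_mul_left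
        exact Nat.le_mul_of_pos_left _ (by omega)
  · show 2 ≤ x ^ E0
    exact h2x.trans (Nat.le_self_pow (by omega) x)
  · intro i hi
    show x ^ E0 ≤ x ^ (2 * E0 - 2 * i - 1)
    have hi' : i ≤ V := hi
    exact Nat.pow_le_pow_right (by omega) (by omega)
  · show Nat.log (x ^ E0) h ≤ J
    have h1 : h ≤ (x ^ E0) ^ J := by
      rw [← pow_mul]
      refine hh3.le.trans (Nat.pow_le_pow_right (by omega) ?_)
      rw [hJ]
      omega
    have h2 := Nat.log_mono_right (b := x ^ E0) h1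
    rwa [Nat.log_pow] at h2
    exact lt_of_lt_of_le (by omega) (h2x.trans (Nat.le_self_pow (by omega) x))
  · show D * (J + 2) < V
    omega
  · show 1 ≤ k
    omega

theorem struct : S_struct := by
  intro C
  rcases Nat.eq_zero_or_pos C with hC0 | hC
  · refine ⟨0, fun k _ p _ hkp A hA h h1 h2 => ?_⟩
    rw [hC0, zero_mul] at h2
    omega
  obtain ⟨D, hD⟩ : ∃ D, D = 2 * C + 1 := ⟨_, rfl⟩
  obtain ⟨J, hJ⟩ : ∃ J : ℕ, J = 3002 := ⟨_, rfl⟩
  obtain ⟨V, hV⟩ : ∃ V, V = D * (J + 2) + 1 := ⟨_, rfl⟩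
  obtain ⟨E0, hE0⟩ : ∃ E0, E0 = 2 * V + 4 := ⟨_, rfl⟩
  obtain ⟨E, hE⟩ : ∃ E, E = 1000 * (2 * E0 + 1) := ⟨_, rfl⟩
  obtain ⟨Cs, hCs⟩ : ∃ Cs, Cs = C * (5 * 8 ^ V) * (V * (J + 2)) := ⟨_, rfl⟩
  obtain ⟨l0, hl0⟩ := exists_ell (4 * (D + 2 * (C + 10) + 1) * (E + 2) ^ 2)
  obtain ⟨T, hT⟩ : ∃ T, T = 2 ^ E + C * Cs + 2 * C * V * (J + 2) + 2 ^ (l0 + 1) := ⟨_, rfl⟩
  have hT1 : 1 ≤ T := by
    rw [hT]
    exact le_trans Nat.one_le_two_pow (Nat.le_add_left _ _)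
  refine ⟨T ^ E, fun k hk p _ hkp A hA h h1 h2 => ?_⟩
  obtain ⟨x, hTx, hxk, hkx⟩ := exists_root E k T (by omega) hT1 hk
  obtain ⟨hOk, hCx, hVk, hCk⟩ := struct_num C D J V E0 E Cs l0 T hC hD hJ hV hE0 hE hCs hl0 hT
    k x hTx hxk hkx p hkp h h1 h2
  have hx0 : 1 ≤ x := hT1.trans hTx
  have hCs1 : 1 ≤ Cs := by
    rw [hCs]
    have h3 : 0 < V * (J + 2) := Nat.mul_pos (by omega) (by omega)
    have h4 : 0 < C * (5 * 8 ^ V) := by positivity
    exact Nat.mul_pos h4 h3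
  obtain ⟨i, w, N, Q, B1, B, o, hi, hw, hN, hQ, hcost, hB1, hB2, hB3, hB4, hB5, hB6, hB7, hB8⟩ :=
    res _ hOk A hA
  have hWu := hOk.hWu
  have hκ := hOk.hκ
  dsimp only at hi hw hQ hcost hB3 hB4 hB5 hB6 hB7 hB8 hWu hκ
  set L2 := Nat.log 2 k + 1 with hL2
  set z := x ^ (2 * E0 - 2 * i - 1) with hz
  have hk2L : k < 2 ^ L2 := Nat.lt_pow_succ_log_self (by norm_num) k
  have hk1 : 1 ≤ k := by omega
  have hcost' : ∑ q ∈ Q, Cs * x ^ (2 * E0 - 2 * q.1) ≤ V * (J + 2) * k := by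
    refine hcost.trans ?_
    apply Nat.mul_le_mul_right
    apply Nat.mul_le_mul_right
    omega
  have hwu : ∀ q ∈ Q, w * (z * L2) ≤ x ^ (2 * E0 - 2 * q.1) := fun q hq =>
    (Nat.mul_le_mul_right _ hw.le).trans (hWu i hi.le q.1 (hQ q hq))
  have hκq : ∀ q ∈ Q, 2 * ((C + 10) * L2) + 1 ≤ x ^ (2 * E0 - 2 * q.1) := fun q hq =>
    hκ q.1 ((hQ q hq).trans hi.le)
  refine ⟨N, z, Cs * x ^ (2 * E0 - 2 * (i + 1)), Q,
    fun q => 2 ^ (2 * (8 ^ i * x ^ (2 * E0 - 2 * q.1) + w * (z * L2)) + 2 * ((C + 10) * L2)),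
    fun q => h * 2 ^ (8 ^ i * x ^ (2 * E0 - 2 * q.1) + w * (z * L2)),
    B1, B, o, hN, ?_, ?_, ?_, ?_, ?_, ?_, hB1, hB2, ?_, ?_, ?_, ?_, ?_, ?_⟩
  · exact Nat.mul_pos hCs1 (Nat.pow_pos hx0)
  · calc C * (Cs * x ^ (2 * E0 - 2 * (i + 1))) = (C * Cs) * x ^ (2 * E0 - 2 * (i + 1)) := by ring
      _ ≤ x * x ^ (2 * E0 - 2 * (i + 1)) := Nat.mul_le_mul_right _ hCx
      _ = x ^ (2 * E0 - 2 * (i + 1) + 1) := by rw [pow_succ]; ring
      _ = z := by rw [hz]; congr 1; omega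
  · have h3 : Cs ≤ x := (Nat.le_mul_of_pos_left Cs hC).trans hCx
    calc (Cs * x ^ (2 * E0 - 2 * (i + 1))) ^ 1000 ≤ (x * x ^ (2 * E0)) ^ 1000 := by
          apply Nat.pow_le_pow_left
          exact Nat.mul_le_mul h3 (Nat.pow_le_pow_right hx0 (by omega))
      _ = x ^ (1000 * (2 * E0 + 1)) := by
          rw [← pow_succ', ← pow_mul]; congr 1; ring
      _ = x ^ E := by rw [hE]
      _ ≤ k := hxk
  · intro q hq
    refine ⟨Nat.one_le_two_pow, ?_⟩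
    dsimp only
    set e := 8 ^ i * x ^ (2 * E0 - 2 * q.1) + w * (z * L2)
    calc C * (h * 2 ^ e) = (C * h) * 2 ^ e := by ring
      _ ≤ (k * (k * k)) * 2 ^ e := by
          apply Nat.mul_le_mul_right
          exact Nat.mul_le_mul hCk (h2.trans (Nat.mul_le_mul_right _ hCk))
      _ ≤ (2 ^ L2 * (2 ^ L2 * 2 ^ L2)) * 2 ^ e := by gcongr
      _ = 2 ^ (L2 + (L2 + L2) + e) := by rw [← pow_add, ← pow_add, ← pow_add]
      _ ≤ _ := by
          apply Nat.pow_le_pow_right (by norm_num)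
          have : 10 * L2 ≤ (C + 10) * L2 := Nat.mul_le_mul_right _ (by omega)
          omega
  · have h5 : ∀ q ∈ Q, Real.log ((2 ^ (2 * (8 ^ i * x ^ (2 * E0 - 2 * q.1) + w * (z * L2)) +
        2 * ((C + 10) * L2)) : ℕ) : ℝ) ≤ ((5 * 8 ^ V * x ^ (2 * E0 - 2 * q.1) : ℕ) : ℝ) := by
      intro q hq
      have h6 := hwu q hq
      have h7 := hκq q hq
      set lq := x ^ (2 * E0 - 2 * q.1)
      set n := 2 * (8 ^ i * lq + w * (z * L2)) + 2 * ((C + 10) * L2) with hn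
      have h8 : n ≤ 5 * 8 ^ V * lq := by
        have h9 : 8 ^ i * lq ≤ 8 ^ V * lq :=
          Nat.mul_le_mul_right _ (Nat.pow_le_pow_right (by norm_num) hi.le)
        have h10 : lq ≤ 8 ^ V * lq := Nat.le_mul_of_pos_left _ (by positivity)
        have h11 : 5 * 8 ^ V * lq = 5 * (8 ^ V * lq) := by ring
        omega
      have h9 : Real.log ((2 ^ n : ℕ) : ℝ) ≤ n := by
        push_cast
        rw [Real.log_pow]
        have : Real.log 2 ≤ 1 := by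
          have := Real.log_two_lt_d9
          linarith
        have h0 : (0 : ℝ) ≤ n := by positivity
        nlinarith
      exact h9.trans (by exact_mod_cast h8)
    have h6 : (C : ℝ) * ∑ q ∈ Q, Real.log ((2 ^ (2 * (8 ^ i * x ^ (2 * E0 - 2 * q.1) +
        w * (z * L2)) + 2 * ((C + 10) * L2)) : ℕ) : ℝ) ≤
        ((C * ∑ q ∈ Q, 5 * 8 ^ V * x ^ (2 * E0 - 2 * q.1) : ℕ) : ℝ) := by
      rw [Nat.cast_mul, Nat.cast_sum]
      exact mul_le_mul_of_nonneg_left (Finset.sum_le_sum h5) (by positivity)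
    refine h6.trans ?_
    norm_cast
    have h7 : 0 < V * (J + 2) := Nat.mul_pos (by omega) (by omega)
    apply Nat.le_of_mul_le_mul_left _ h7
    refine le_trans (le_of_eq ?_) hcost'
    rw [← Finset.mul_sum, ← Finset.mul_sum, hCs]
    ring
  · have hcard : Q.card ≤ V * (J + 2) * k := by
      refine le_trans ?_ hcost'
      rw [Finset.card_eq_sum_ones]
      apply Finset.sum_le_sum
      intro q _
      exact Nat.mul_pos hCs1 (Nat.pow_pos hx0)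
    have hterm : ∀ q ∈ Q, ((h * 2 ^ (8 ^ i * x ^ (2 * E0 - 2 * q.1) + w * (z * L2)) : ℕ) : ℝ) *
        (2 / Real.sqrt ((2 ^ (2 * (8 ^ i * x ^ (2 * E0 - 2 * q.1) + w * (z * L2)) +
        2 * ((C + 10) * L2)) : ℕ) : ℝ)) = 2 * h / 2 ^ ((C + 10) * L2) := by
      intro q _
      set e := 8 ^ i * x ^ (2 * E0 - 2 * q.1) + w * (z * L2)
      have h3 : Real.sqrt ((2 ^ (2 * e + 2 * ((C + 10) * L2)) : ℕ) : ℝ) = 2 ^ (e + (C + 10) * L2) := by
        rw [show ((2 ^ (2 * e + 2 * ((C + 10) * L2)) : ℕ) : ℝ) = (2 ^ (e + (C + 10) * L2)) ^ 2 by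
          push_cast
          rw [← pow_mul]
          congr 1
          ring]
        exact Real.sqrt_sq (by positivity)
      rw [h3, Nat.cast_mul, Nat.cast_pow, Nat.cast_ofNat, pow_add (2 : ℝ) e]
      have h4 : (2 : ℝ) ^ e ≠ 0 := by positivity
      have h5 : (2 : ℝ) ^ ((C + 10) * L2) ≠ 0 := by positivity
      field_simp
    rw [Finset.sum_congr rfl hterm, Finset.sum_const, nsmul_eq_mul]
    have hkR : (1 : ℝ) ≤ k := by exact_mod_cast hk1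
    have h2L : (k : ℝ) ^ (C + 10) ≤ 2 ^ ((C + 10) * L2) := by
      rw [mul_comm (C + 10) L2, pow_mul]
      apply pow_le_pow_left₀ (by positivity)
      exact_mod_cast hk2L.le
    have hpos : (0 : ℝ) < (k : ℝ) ^ (C + 10) := by positivity
    have hhR : (h : ℝ) ≤ C * k := by exact_mod_cast h2
    have hVR : (2 * C * V * (J + 2) : ℝ) ≤ k := by exact_mod_cast hVk
    have hcardR : (Q.card : ℝ) ≤ V * (J + 2) * k := by exact_mod_cast hcard
    calc (Q.card : ℝ) * (2 * h / 2 ^ ((C + 10) * L2)) * k ^ C ≤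
        (V * (J + 2) * k) * (2 * (C * k) / k ^ (C + 10)) * k ^ C := by
          gcongr
      _ = (2 * C * V * (J + 2)) * k ^ (C + 2) / k ^ (C + 10) := by
          rw [pow_add (k : ℝ) C 2]
          field_simp
      _ ≤ k * k ^ (C + 2) / k ^ (C + 10) := by gcongr
      _ = k ^ (C + 3) / k ^ (C + 10) := by rw [← pow_succ']
      _ ≤ 1 := by
          rw [div_le_one hpos]
          exact pow_le_pow_right₀ hkR (by omega)
  · have h3 : (2 * C) * (B1 \ B).card ≤ D * (B1 \ B).card := Nat.mul_le_mul_right _ (by omega)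
    have h4 : (2 * C) * (B1 \ B).card = 2 * (C * (B1 \ B).card) := by ring
    omega
  · intro a ha
    obtain ⟨b, hb, hb'⟩ := hB4 a ha
    refine ⟨b, hb, ?_⟩
    rw [← nsmul_eq_mul]
    refine Box_mono (Subset.refl _) ?_ hb'
    intro q hq
    exact Nat.le_mul_of_pos_left _ h1
  · intro b hb j hj hdvd
    have := hB5 b hb j hj hdvd
    rw [nsmul_eq_mul] at this
    exact this
  · intro b hb j hj hmem
    apply hB6 b hb j hj
    rw [nsmul_eq_mul]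
    exact hmem
  · intro b hb b' hb' hne j hj1 hj2 hmem
    apply hB7 b hb b' hb' hne j hj1 hj2
    rw [nsmul_eq_mul, nsmul_eq_mul]
    exact hmem
  · intro F hF
    have := hB8 F hF
    simp only [nsmul_eq_mul] at this
    exact this

end Pool.Agent.W246.LG
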