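import Mathlib

/-!
Project LG (MP_c4c804_co, frozen S11309): large gaps in dilates of sets of size O(log p) in Z/p.
Definitions and exact statements (Props) of the parts.
-/

set_option autoImplicit false

namespace Pool.Agent.W246.LG

open Finset

/-- integer combinations of the `d q`, `q ∈ Q`, with coefficients bounded by `H q` -/
def Box {G ι : Type} [AddCommGroup G] (Q : Finset ι) (d : ι → G) (H : ι → ℕ) : Set G :=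
  {g | ∃ m : ι → ℤ, (∀ q ∈ Q, |m q| ≤ (H q : ℤ)) ∧ g = ∑ q ∈ Q, m q • d q}

open Classical in
/-- `dep B y o h T F`: the `x ∈ B` for which some combination of the `y b`, `b ∈ F ∪ {x}`, with
coefficients at most `h`, lies in `T`, while the coefficient of `x` is not divisible by `o x`
(`o x = 0` means infinite order). -/
noncomputable def dep {G : Type} [AddCommGroup G] (B : Finset G) (y : G → G) (o : G → ℕ) (h : ℕ)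
    (T : Set G) (F : Finset G) : Finset G :=
  B.filter (fun x => ∃ m : G → ℤ, (∀ b ∈ insert x F, |m b| ≤ (h : ℤ)) ∧
    ∑ b ∈ insert x F, m b • y b ∈ T ∧ ¬ ((o x : ℤ) ∣ m x))

/-- the independent sets of the proof: every relation (in nested sets `T`) among the elements of a
subset is trivial -/
def Ind {G : Type} [AddCommGroup G] (B : Finset G) (y : G → G) (o : G → ℕ) (h r : ℕ)
    (T : ℕ → Set G) (S : Finset G) : Prop :=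
  S ⊆ B ∧ ∀ S' ⊆ S, ∀ m : G → ℤ, (∀ b ∈ S', |m b| ≤ (h : ℤ)) →
    ∑ b ∈ S', m b • y b ∈ T (r - S'.card) → ∀ b ∈ S', (o b : ℤ) ∣ m b

/-- trigonometric polynomial with (real, even) coefficients `a j`, `|j| ≤ h`, restricted to the
multiples of `o` (for `o = 0` only `j = 0` remains, for `o = 1` all `j`) -/
noncomputable def tp (p h : ℕ) [NeZero p] (a : ℤ → ℝ) (o : ℕ) (x : ZMod p) : ℝ :=
  (∑ j ∈ (Icc (-(h : ℤ)) (h : ℤ)).filter (fun j => (o : ℤ) ∣ j),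
    (a j : ℂ) * ZMod.stdAddChar (j • x)).re

/-! ### T1: the test function -/

/-- the test function `1 - (1 - F)^m`, `F` the Fejer kernel of order `n` -/
def S_chi : Prop := ∀ m n : ℕ, 1 ≤ m → 1 ≤ n → ∃ (chi : ℝ → ℝ) (a : ℤ → ℝ),
  (∀ t : ℝ, 0 ≤ chi t ∧ chi t ≤ 1) ∧ (∀ t : ℝ, chi (t + 1) = chi t) ∧
  (∀ t : ℝ, (chi t : ℂ) = ∑ j ∈ Icc (-((m * n : ℕ) : ℤ)) ((m * n : ℕ) : ℤ),
    (a j : ℂ) * Complex.exp (2 * Real.pi * Complex.I * j * t)) ∧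
  (∀ j : ℤ, a (-j) = a j) ∧ (∀ j : ℤ, |a j| ≤ a 0) ∧
  (∀ t : ℝ, |t| ≤ 1 / (4 * n) → 1 - chi t ≤ (1 / 2) ^ m) ∧
  (∀ t : ℝ, t ≠ 0 → |t| ≤ 1 / 2 → chi t ≤ m / (4 * n ^ 2 * t ^ 2)) ∧
  a 0 ≤ 4 * Real.sqrt m / n

/-- T1b: transfer to `ZMod p`: the restriction to multiples of `o ≥ 1` is an average of translates -/
def S_tp : Prop := ∀ (p h : ℕ) [NeZero p] (chi : ℝ → ℝ) (a : ℤ → ℝ),
  (∀ t, chi (t + 1) = chi t) →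
  (∀ t : ℝ, (chi t : ℂ) = ∑ j ∈ Icc (-(h : ℤ)) (h : ℤ),
    (a j : ℂ) * Complex.exp (2 * Real.pi * Complex.I * j * t)) →
  (∀ j : ℤ, a (-j) = a j) →
  (∀ o : ℕ, 1 ≤ o → ∀ x : ZMod p,
    tp p h a o x = (∑ i ∈ range o, chi ((x.val : ℝ) / p + i / o)) / o) ∧
  (∀ x : ZMod p, tp p h a 0 x = a 0) ∧
  (∀ (o : ℕ) (x : ZMod p), (tp p h a o x : ℂ) =
    ∑ j ∈ (Icc (-(h : ℤ)) (h : ℤ)).filter (fun j => (o : ℤ) ∣ j),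
      (a j : ℂ) * ZMod.stdAddChar (j • x))

/-! ### T2: the pinning measure -/

/-- product of Fejer kernels -/
def S_fejer : Prop := ∀ (p : ℕ) [Fact p.Prime] (ι : Type) (Q : Finset ι) (d : ι → ZMod p)
    (M : ι → ℕ), (∀ q ∈ Q, 1 ≤ M q) →
  ∃ w : ZMod p → ℝ, (∀ c, 0 ≤ w c) ∧ ∑ c, w c = 1 ∧ w 0 ≤ (∏ q ∈ Q, (M q : ℝ)) / p ∧
    (∀ g, g ∉ Box Q d M → ∑ c, (w c : ℂ) * ZMod.stdAddChar (c * g) = 0) ∧
    (∀ m : ι → ℤ, ∑ c, w c * ‖(ZMod.stdAddChar (c * ∑ q ∈ Q, m q • d q) : ℂ) - 1‖ ≤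
      ∑ q ∈ Q, |(m q : ℝ)| * (2 / Real.sqrt (M q)))

/-! ### T3: exact identity -/

def S_expand : Prop := ∀ (p : ℕ) [Fact p.Prime] (w : ZMod p → ℝ) (T : Set (ZMod p)),
  (∀ g, g ∉ T → ∑ c, (w c : ℂ) * ZMod.stdAddChar (c * g) = 0) →
  ∀ (S : Finset (ZMod p)) (y : ZMod p → ZMod p) (h : ℕ) (f f' : ZMod p → ℤ → ℂ),
    (∀ m : ZMod p → ℤ, (∀ b ∈ S, |m b| ≤ (h : ℤ)) → ∑ b ∈ S, m b • y b ∈ T →
      ∀ b ∈ S, f b (m b) = f' b (m b)) →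
    ∑ c, (w c : ℂ) * ∏ b ∈ S, ∑ j ∈ Icc (-(h : ℤ)) (h : ℤ), f b j * ZMod.stdAddChar (j • (c * y b)) =
    ∑ c, (w c : ℂ) * ∏ b ∈ S, ∑ j ∈ Icc (-(h : ℤ)) (h : ℤ), f' b j * ZMod.stdAddChar (j • (c * y b))

/-! ### T4: Bonferroni inequality with a simplicial complex -/

def S_bonf : Prop := ∀ (α : Type) [DecidableEq α] (B : Finset α) (f : α → ℝ),
  (∀ b ∈ B, 0 ≤ f b ∧ f b ≤ 1) →
  ∀ (I : Finset α → Prop) [DecidablePred I], I ∅ → (∀ S T, S ⊆ T → I T → I S) →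
  ∀ R : ℕ, Odd R →
  ∑ S ∈ B.powerset.filter (fun S => S.card ≤ R ∧ I S), (-1 : ℝ) ^ S.card * ∏ b ∈ S, f b
    - 4 ^ R * ∑ S ∈ B.powerset.filter (fun S => S.card < 2 * R ∧ I S),
        ∑ x ∈ (B \ S).filter (fun x => ¬ I (insert x S)), ∏ b ∈ insert x S, f b
  ≤ ∏ b ∈ B, (1 - f b)

/-! ### T5: the main term -/

def S_main : Prop := ∀ (α : Type) [DecidableEq α] (B : Finset α) (q : α → ℝ) (W : ℝ),
  (∀ b ∈ B, 0 ≤ q b ∧ q b ≤ 1 / 2) → ∑ b ∈ B, q b ≤ W → ∀ R : ℕ, Odd R →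
  Real.exp (-2 * W) - W ^ (R + 1) / (R + 1).factorial ≤
    ∑ S ∈ B.powerset.filter (fun S => S.card ≤ R), (-1 : ℝ) ^ S.card * ∏ b ∈ S, q b

def S_esymm : Prop := ∀ (α : Type) [DecidableEq α] (B : Finset α) (q : α → ℝ) (W : ℝ),
  (∀ b ∈ B, 0 ≤ q b) → ∑ b ∈ B, q b ≤ W → ∀ j : ℕ,
  ∑ S ∈ B.powersetCard j, ∏ b ∈ S, q b ≤ W ^ j / j.factorial

/-! ### T6: the graph lemma -/

open Classical in
def S_graph : Prop := ∀ (α : Type) (B : Finset α) (q : α → ℝ) (qs W D σ r : ℝ)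
    (E : α → α → α → Prop),
  (∀ b ∈ B, 0 ≤ q b ∧ q b ≤ qs) → ∑ b ∈ B, q b ≤ W → 1 ≤ W → 1 ≤ D → 0 < qs → D * qs ≤ 1 / 16 →
  0 ≤ σ → 0 ≤ r →
  (∀ x ∈ B, ∀ s ∈ B, ((B.filter (fun t => E x s t)).card : ℝ) ≤ D) →
  (∀ x ∈ B, ∀ t ∈ B, ((B.filter (fun s => E x s t)).card : ℝ) ≤ D) →
  (∀ F ⊆ B, ((B.filter (fun x => ∃ s ∈ F, ∃ t ∈ F, s ≠ t ∧ E x s t)).card : ℝ) ≤
    σ * (F.card + r)) →
  ∑ x ∈ B, ∑ s ∈ B, ∑ t ∈ B.filter (fun t => s ≠ t ∧ E x s t), q s * q t ≤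
    100 * σ * (r + 1) * W ^ 2 * Real.sqrt (D * qs)

/-! ### T7: the dependence calculus -/

open Classical in
def S_dep : Prop := ∀ (G : Type) [AddCommGroup G] (B : Finset G) (y : G → G)
    (o : G → ℕ) (h r : ℕ) (T : ℕ → Set G) (Sm : Set G),
  (∀ i j, i ≤ j → T i ⊆ T j) → (∀ i, ∀ g ∈ T i, ∀ s ∈ Sm, g - s ∈ T (i + 1)) →
  (∀ b ∈ B, ∀ j : ℤ, |j| ≤ (h : ℤ) → (o b : ℤ) ∣ j → j • y b ∈ Sm) →
  Ind B y o h r T ∅ ∧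
  (∀ S S', S ⊆ S' → Ind B y o h r T S' → Ind B y o h r T S) ∧
  (∀ S, Ind B y o h r T S → ∀ m : G → ℤ, (∀ b ∈ S, |m b| ≤ (h : ℤ)) →
    ∑ b ∈ S, m b • y b ∈ T 0 → ∀ b ∈ S, (o b : ℤ) ∣ m b) ∧
  (∀ S ⊆ B, ¬ Ind B y o h r T S → ∃ x ∈ S, x ∈ dep B y o h (T r) (S.erase x)) ∧
  (∀ F F' : Finset G, F ⊆ F' → dep B y o h (T r) F ⊆ dep B y o h (T r) F') ∧
  (∀ S, Ind B y o h r T S → ∀ x ∈ B, x ∉ S → S.card + 1 ≤ r → ¬ Ind B y o h r T (insert x S) →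
    x ∈ dep B y o h (T r) S) ∧
  (∀ S, Ind B y o h r T S → ∀ x ∈ B, x ∉ S → S.card + 1 ≤ r →
    ∀ S0 ⊆ S, (∀ s ∈ S, s ∈ S0 ↔ ∃ m : G → ℤ, (∀ b ∈ insert x S, |m b| ≤ (h : ℤ)) ∧
      ∑ b ∈ insert x S, m b • y b ∈ T 0 ∧ ¬ ((o s : ℤ) ∣ m s)) →
    ∀ s ∈ S0, x ∈ dep B y o h (T r) S0 ∧ s ∈ dep B y o h (T r) (insert x (S0.erase s)))

/-! ### T8: total weight of the dependent sets -/

open Classical in
def S_depsum : Prop := ∀ (α : Type) (B : Finset α) (q : α → ℝ) (qs W σ : ℝ)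
    (P : Finset α → Prop) (D : Finset α → Finset α) (R : ℕ),
  (∀ b ∈ B, 0 ≤ q b ∧ q b ≤ qs) → ∑ b ∈ B, q b ≤ W → 1 ≤ W → 0 ≤ σ → 0 ≤ qs →
  (∀ F ⊆ B, D F ⊆ B ∧ ((D F).card : ℝ) ≤ σ * F.card) →
  (∀ S ⊆ B, ¬ P S → ∃ x ∈ S, x ∈ D (S.erase x)) →
  ∑ S ∈ B.powerset.filter (fun S => S.card ≤ R ∧ ¬ P S), ∏ b ∈ S, q b ≤
    (R + 1) * W ^ R * (σ * R * qs)

/-! ### T9: pairs, averaged over the translation `v` -/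

open Classical in
def S_pair : Prop := ∀ (p : ℕ) [Fact p.Prime] (w : ZMod p → ℝ) (T : Set (ZMod p)) (h z : ℕ)
    (a : ℤ → ℝ) (g1 g2 : ZMod p),
  (∀ c, 0 ≤ w c) → ∑ c, w c = 1 →
  (∀ g, g ∉ T → ∑ c, (w c : ℂ) * ZMod.stdAddChar (c * g) = 0) →
  (∀ j : ℤ, a (-j) = a j) → (∀ j : ℤ, |a j| ≤ a 0) → 2 * h < p → 1 ≤ z →
  (∀ j : ℕ, 1 ≤ j → j ≤ z → (j : ZMod p) * (g1 - g2) ∉ {g | ∃ s ∈ T, ∃ t ∈ T, g = s - t}) →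
  (∑ v : ZMod p, ∑ c, w c * (tp p h a 1 (c * g1 - v) * tp p h a 1 (c * g2 - v))) / p ≤
    a 0 ^ 2 * (2 * h / z + 3)

/-! ### T10: the lower bound for a fixed translation `v` -/

open Classical in
def S_core : Prop := ∀ (p : ℕ) [Fact p.Prime] (w : ZMod p → ℝ) (B : Finset (ZMod p))
    (y : ZMod p → ZMod p) (o : ZMod p → ℕ) (h R : ℕ) (a : ℤ → ℝ) (T : ℕ → Set (ZMod p))
    (Sm : Set (ZMod p)) (η W qs σ : ℝ) (k : ℕ) (v : ZMod p),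
  (∀ c, 0 ≤ w c) → ∑ c, w c = 1 → Odd R → 1 ≤ h → B.card ≤ k →
  (∀ j : ℤ, a (-j) = a j) → (∀ j : ℤ, |a j| ≤ a 0) →
  (∀ (o' : ℕ) (x : ZMod p), 0 ≤ tp p h a o' x ∧ tp p h a o' x ≤ 1) →
  (∀ i j, i ≤ j → T i ⊆ T j) → (∀ i, ∀ g ∈ T i, ∀ s ∈ Sm, g - s ∈ T (i + 1)) →
  (∀ g, g ∉ T 0 → ∑ c, (w c : ℂ) * ZMod.stdAddChar (c * g) = 0) →
  (∀ g ∈ Sm, ∑ c, w c * ‖(ZMod.stdAddChar (c * g) : ℂ) - 1‖ ≤ η) →
  (∀ b ∈ B, ∀ j : ℤ, |j| ≤ (h : ℤ) → (o b : ℤ) ∣ j → j • y b ∈ Sm) →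
  (∀ b ∈ B, ∀ j : ℤ, |j| ≤ (h : ℤ) → j • y b ∈ T (2 * R + 2) → (o b : ℤ) ∣ j) →
  (∀ F ⊆ B, ((dep B y o h (T (2 * R + 2)) F).card : ℝ) ≤ σ * F.card) →
  (∀ b ∈ B, tp p h a (o b) (-v) ≤ qs) → ∑ b ∈ B, tp p h a (o b) (-v) ≤ W →
  1 ≤ W → 1 ≤ σ → 0 < qs → qs ≤ 1 / 2 → σ * (2 * R + 2) * qs ≤ 1 / 16 → 0 ≤ η →
  Real.exp (-2 * W) - W ^ (R + 1) / (R + 1).factorial
    - (100 * R * W) ^ (10 * R) * (σ ^ 2 * Real.sqrt qs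
      + (∑ s ∈ B, ∑ x ∈ (dep B y o h (T (2 * R + 2)) {s}).erase s,
          ∑ c, w c * (tp p h a 1 (c * y s - v) * tp p h a 1 (c * y x - v)))
      + (k + 1) ^ (2 * R + 2) * h * η)
  ≤ ∑ c, w c * ∏ b ∈ B, (1 - tp p h a 1 (c * y b - v))

/-! ### T11: the structure theorem -/

def S_struct : Prop := ∀ C : ℕ, ∃ k0 : ℕ, ∀ k ≥ k0, ∀ (p : ℕ) [Fact p.Prime], k < p →
  ∀ A : Finset (ZMod p), A.card = k → ∀ h : ℕ, 1 ≤ h → h ≤ C * k →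
  ∃ (N z s : ℕ) (Q : Finset (ℕ × ZMod p × ZMod p)) (M Hs : ℕ × ZMod p × ZMod p → ℕ)
    (B1 B : Finset (ZMod p)) (o : ZMod p → ℕ),
    (N : ZMod p) ≠ 0 ∧ 1 ≤ s ∧ C * s ≤ z ∧ s ^ 1000 ≤ k ∧
    (∀ q ∈ Q, 1 ≤ M q ∧ C * Hs q ≤ M q) ∧
    C * ∑ q ∈ Q, Real.log (M q) ≤ k ∧
    (∑ q ∈ Q, (Hs q : ℝ) * (2 / Real.sqrt (M q))) * k ^ C ≤ 1 ∧
    B ⊆ B1 ∧ B1 ⊆ A ∧ C * (B1 \ B).card ≤ k ∧
    (∀ a ∈ A, ∃ b, (b ∈ B1 ∨ b = 0) ∧ (N : ZMod p) * (a - b) ∈ Box Q (fun q => q.2.2) Hs) ∧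
    (∀ b ∈ B, ∀ j : ℤ, |j| ≤ (h : ℤ) → (o b : ℤ) ∣ j →
      j • ((N : ZMod p) * b) ∈ Box Q (fun q => q.2.2) Hs) ∧
    (∀ b ∈ B, ∀ j : ℤ, |j| ≤ (h : ℤ) →
      j • ((N : ZMod p) * b) ∈ Box Q (fun q => q.2.2) (fun q => 2 * M q) → (o b : ℤ) ∣ j) ∧
    (∀ b ∈ B, ∀ b' ∈ B, b ≠ b' → ∀ j : ℕ, 1 ≤ j → j ≤ z →
      (j : ZMod p) * ((N : ZMod p) * (b - b')) ∉ Box Q (fun q => q.2.2) (fun q => 2 * M q)) ∧
    (∀ F ⊆ A, (dep B (fun b => (N : ZMod p) * b) o h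
      (Box Q (fun q => q.2.2) (fun q => 2 * M q)) F).card ≤ s * F.card)

/-! ### T12: the analytic half -/

/-- large gap for one set -/
def Gap (p : ℕ) (A : Finset (ZMod p)) (L : ℝ) : Prop :=
  ∃ c : ZMod p, c ≠ 0 ∧ ∃ v : ZMod p, ∀ i : ℕ, (i : ℝ) < L → ∀ a ∈ A, c * a ≠ v + i

/-- the goal: for all constants `K, L` and large `k`, every `A ⊆ ZMod p` with `|A| = k ≤ K log p`
has a nonzero dilate with a gap of length `L p / k` -/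
def S_goal : Prop := ∀ K L : ℝ, 1 ≤ K → 1 ≤ L → ∃ k0 : ℕ, ∀ k ≥ k0, ∀ (p : ℕ) [Fact p.Prime],
  (k : ℝ) ≤ K * Real.log p → ∀ A : Finset (ZMod p), A.card = k → Gap p A (L * p / k)

/-- T12: the analytic half (choice of the constants and of `v`) -/
def S_final : Prop := S_chi → S_tp → S_fejer → S_pair → S_core → S_struct → S_goal

/-- T10 in the form to be proved -/
def S_core_task : Prop :=
  S_expand → S_bonf → S_main → S_esymm → S_graph → S_dep → S_depsum → S_core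

end Pool.Agent.W246.LG
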