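import Pool.Agent.W246.LG.Pot

set_option autoImplicit false

namespace Pool.Agent.W246.LG

open Finset

/-- bounded Bezout coefficients -/
theorem bezout_bdd (o : ℕ) (ho : 1 ≤ o) (m : ℤ) (hm : ¬ ((o : ℤ) ∣ m)) :
    ∃ (g : ℕ) (α β : ℤ), |α| ≤ |m| ∧ |β| ≤ o ∧ (g : ℤ) = α * o + β * m ∧ 1 ≤ g ∧ g < o ∧ g ∣ o := by
  have hb := Int.gcd_eq_gcd_ab o m
  have ho' : (0 : ℤ) < o := by exact_mod_cast ho
  have hgd : Int.gcd o m ∣ o := by
    have := Int.gcd_dvd_left (o : ℤ) m
    exact_mod_cast this
  have hglt : Int.gcd o m < o := by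
    refine lt_of_le_of_ne (Nat.le_of_dvd ho hgd) fun heq => hm ?_
    have := Int.gcd_dvd_right (o : ℤ) m
    rwa [heq] at this
  have hgpos : 1 ≤ Int.gcd o m := Nat.pos_of_ne_zero (by
    rw [Ne, Int.gcd_eq_zero_iff]; rintro ⟨h1, -⟩; omega)
  set g : ℤ := ((Int.gcd o m : ℕ) : ℤ) with hg
  set β : ℤ := Int.gcdB o m % o with hβ
  have hβ0 : 0 ≤ β := Int.emod_nonneg _ ho'.ne'
  have hβ1 : β < o := Int.emod_lt_of_pos _ ho'
  set α : ℤ := Int.gcdA o m + (Int.gcdB o m / o) * m with hα
  have hdiv : Int.gcdB o m = o * (Int.gcdB o m / o) + β := by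
    rw [hβ]; exact (Int.mul_ediv_add_emod _ _).symm
  have heq : g = α * o + β * m := by
    rw [hb, hα]
    linear_combination (m) * hdiv
  refine ⟨Int.gcd o m, α, β, ?_, ?_, heq, hgpos, hglt, hgd⟩
  · have hgo : g < o := by rw [hg]; exact_mod_cast hglt
    have hg0 : 0 ≤ g := by rw [hg]; positivity
    have h1 : |α * o| < (|m| + 1) * o := by
      have h2 : α * o = g - β * m := by linarith
      rw [h2]
      have h3 : |g - β * m| ≤ |g| + |β * m| := abs_sub _ _
      rw [abs_of_nonneg hg0, abs_mul, abs_of_nonneg hβ0] at h3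
      have h4 : β * |m| ≤ o * |m| := mul_le_mul_of_nonneg_right hβ1.le (abs_nonneg _)
      nlinarith
    have h3 : |α| * o < (|m| + 1) * o := by
      rwa [abs_mul, abs_of_pos ho'] at h1
    have h4 : |α| < |m| + 1 := lt_of_mul_lt_mul_right h3 ho'.le
    omega
  · rw [abs_of_nonneg hβ0]; exact hβ1.le

variable {G : Type} [AddCommGroup G]

open Classical in
/-- the extraction at a good stage -/
theorem good_extract (A : Finset G) (h X z s K D N : ℕ) (Zp Zev TT : Set G)
    (Zn : Finset G → Set G) (hX : 2 ≤ X) (hXz : X ≤ z)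
    (hp : Zp ⊆ Zev) (hev : Zev ⊆ Zn ∅) (hn : ∀ F, Zn ∅ ⊆ Zn F)
    (h0 : (0 : G) ∈ Zev) (hneg : ∀ g ∈ Zev, -g ∈ Zev)
    (hdiv : ∀ m : ℕ, 1 ≤ m → m ≤ z → ∀ g : G, m • (N • g) ∈ TT → g ∈ Zn ∅)
    (hrel : ∀ F ⊆ A, ∀ x ∈ A, ∀ m : G → ℤ, (∀ b ∈ insert x F, |m b| ≤ (h : ℤ)) →
      ∑ b ∈ insert x F, m b • (N • b) ∈ TT → ∀ o : ℕ, (o = 0 ∨ (o ≤ h ∧ o • x ∈ Zev)) →
      ∀ α β : ℤ, |α| ≤ (h : ℤ) → |β| ≤ (h : ℤ) → ∀ g : ℕ, (g : ℤ) = α * o + β * m x →
      g • x ∈ Zn F)
    (harg : ∀ F ⊆ A, Phi A X h (Zn ∅) ≤ Phi A X h (Zn F) + s * F.card)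
    (hdrop : D * Phi A X h Zp ≤ D * Phi A X h (Zn ∅) + K)
    (hrough : D * (A.filter (fun a => NonRough Zev h z a)).card ≤ K) :
    ∃ B1 B : Finset G, B ⊆ B1 ∧ B1 ⊆ A ∧ D * (B1 \ B).card ≤ 2 * K ∧
      (∀ a ∈ A, ∃ b, (b ∈ B1 ∨ b = 0) ∧ a - b ∈ Zev) ∧
      (∀ b ∈ B, ∀ j : ℤ, |j| ≤ (h : ℤ) → j • (N • b) ∈ TT → (ordZ Zev h b : ℤ) ∣ j) ∧
      (∀ b ∈ B, ∀ b' ∈ B, b ≠ b' → ∀ j : ℕ, 1 ≤ j → j ≤ z → j • (N • (b - b')) ∉ TT) ∧
      (∀ F ⊆ A, (dep B (fun b => N • b) (ordZ Zev h) h TT F).card ≤ s * F.card) := by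
  -- the separated sets
  obtain ⟨B0, hB0A, hB0sep, hB0card⟩ := exists_sep A (Zn ∅)
  have hB0sep' : Sep Zev B0 := hB0sep.mono hev
  obtain ⟨B1, hB1mem, hB1max⟩ := Finset.exists_max_image
    (A.powerset.filter (fun B => B0 ⊆ B ∧ Sep Zev B)) Finset.card
    ⟨B0, by simp [hB0A, hB0sep']⟩
  simp only [mem_filter, mem_powerset] at hB1mem hB1max
  obtain ⟨hB1A, hB01, hB1sep⟩ := hB1mem
  set U1 : Finset G := A.filter (fun a => phi X h (ordZ (Zn ∅) h a) ≠ phi X h (ordZ Zev h a)) with hU1
  set U2 : Finset G := A.filter (fun a => NonRough Zev h z a) with hU2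
  set B : Finset G := (B0 \ U1) \ U2 with hB
  have hBB0 : B ⊆ B0 := (sdiff_subset).trans sdiff_subset
  -- drop estimates
  have hsum1 : U1.card + ∑ a ∈ A, phi X h (ordZ (Zn ∅) h a) ≤ ∑ a ∈ A, phi X h (ordZ Zp h a) := by
    rw [hU1, Finset.card_filter, ← Finset.sum_add_distrib]
    apply Finset.sum_le_sum
    intro a _
    have h1 := phi_mono hev X h a
    have h2 := phi_mono hp X h a
    split_ifs with h3
    · omega
    · omega
  have hsep1 : B1.card ≤ sep A Zp := (card_le_sep hB1A hB1sep).trans (sep_mono hp)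
  have hdiff : U1.card + (B1 \ B0).card + Phi A X h (Zn ∅) ≤ Phi A X h Zp := by
    have h1 : (B1 \ B0).card + B0.card = B1.card := by
      rw [Finset.card_sdiff_add_card_eq_card hB01]
    unfold Phi
    omega
  have hcard : D * (B1 \ B).card ≤ 2 * K := by
    have h1 : B1 \ B ⊆ (B1 \ B0) ∪ (U1 ∪ U2) := by
      intro a ha
      simp only [hB, mem_sdiff, mem_union, not_and, not_not] at ha ⊢
      tauto
    have h2 : (B1 \ B).card ≤ (B1 \ B0).card + (U1.card + U2.card) :=
      (card_le_card h1).trans ((card_union_le _ _).trans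
        (Nat.add_le_add_left (card_union_le _ _) _))
    have h3 : D * (U1.card + (B1 \ B0).card) ≤ K := by
      have := Nat.mul_le_mul_left D hdiff
      rw [mul_add] at this
      omega
    calc D * (B1 \ B).card ≤ D * ((B1 \ B0).card + (U1.card + U2.card)) := Nat.mul_le_mul_left _ h2
      _ = D * (U1.card + (B1 \ B0).card) + D * U2.card := by ring
      _ ≤ K + K := Nat.add_le_add h3 hrough
      _ = 2 * K := by ring
  -- the dependence bound
  have hdep : ∀ F ⊆ A, (dep B (fun b => N • b) (ordZ Zev h) h TT F).card ≤ s * F.card := by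
    intro F hF
    set U := dep B (fun b => N • b) (ordZ Zev h) h TT F with hU
    have hUB : U ⊆ B := by rw [hU]; unfold dep; exact filter_subset _ _
    have hUA : U ⊆ A := hUB.trans (hBB0.trans hB0A)
    have hkey : ∀ x ∈ U, phi X h (ordZ (Zn F) h x) + 1 ≤ phi X h (ordZ (Zn ∅) h x) := by
      intro x hx
      have hxB : x ∈ B := hUB hx
      have hxA : x ∈ A := hUA hx
      have hstab : phi X h (ordZ (Zn ∅) h x) = phi X h (ordZ Zev h x) := by
        by_contra hne
        have : x ∈ U1 := by rw [hU1, mem_filter]; exact ⟨hxA, hne⟩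
        rw [hB, mem_sdiff, mem_sdiff] at hxB
        exact hxB.1.2 this
      have hrgh : ¬ NonRough Zev h z x := by
        intro hne
        have : x ∈ U2 := by rw [hU2, mem_filter]; exact ⟨hxA, hne⟩
        rw [hB, mem_sdiff] at hxB
        exact hxB.2 this
      rw [hU] at hx
      unfold dep at hx
      rw [mem_filter] at hx
      obtain ⟨-, m, hm1, hm2, hm3⟩ := hx
      rw [hstab]
      by_cases ho : ordZ Zev h x = 0
      · rw [ho] at hm3 ⊢
        have hmx : m x ≠ 0 := by
          intro hc; rw [hc] at hm3; simp at hm3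
        have hmx' := hm1 x (mem_insert_self _ _)
        have hg := hrel F hF x hxA m hm1 hm2 0 (Or.inl rfl) 0 (Int.sign (m x)) (by simp)
          (by
            have h1 : |Int.sign (m x)| ≤ 1 := by
              rcases lt_trichotomy (m x) 0 with h | h | h
              · rw [Int.sign_eq_neg_one_of_neg h]; simp
              · exact absurd h hmx
              · rw [Int.sign_eq_one_of_pos h]; simp
            have h2 : (1 : ℤ) ≤ |m x| := Int.one_le_abs hmx
            linarith) (m x).natAbs (by simp)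
        have h1 : 1 ≤ (m x).natAbs := Int.natAbs_pos.mpr hmx
        have h2 : (m x).natAbs ≤ h := by
          have : ((m x).natAbs : ℤ) ≤ h := by rw [Int.natCast_natAbs]; exact hmx'
          exact_mod_cast this
        obtain ⟨h3, h4⟩ := ordZ_le h1 h2 hg
        rw [phi, if_neg h4, phi, if_pos rfl]
        have := Nat.log_mono_right (b := X) (h3.trans h2)
        omega
      · obtain ⟨h1, h2, h3⟩ := ordZ_spec ho
        obtain ⟨g, α, β, hα, hβ, hg, hg1, hg2, hg3⟩ := bezout_bdd _ h1 (m x) hm3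
        have hmx' := hm1 x (mem_insert_self _ _)
        have hgx := hrel F hF x hxA m hm1 hm2 _ (Or.inr ⟨h2, h3⟩) α β (hα.trans hmx')
          (hβ.trans (by exact_mod_cast h2)) g hg
        obtain ⟨h4, h5⟩ := ordZ_le (h := h) (m := g) hg1 (by omega) hgx
        rw [phi, if_neg h5, phi, if_neg ho]
        -- g * X ≤ ordZ
        obtain ⟨t, ht⟩ := hg3
        have ht1 : t ≠ 1 := by
          rintro rfl
          rw [mul_one] at ht
          omega
        have hz : z < t := by
          by_contra hcon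
          push Not at hcon
          have ht0 : t ≠ 0 := by
            rintro rfl
            rw [mul_zero] at ht
            exact ho ht
          apply hrgh
          refine ⟨ho, t.minFac, Nat.minFac_prime ht1, (Nat.minFac_le (by omega)).trans hcon, ?_⟩
          rw [ht]
          exact (Nat.minFac_dvd t).mul_left g
        have h6 : g * X ≤ ordZ Zev h x := by
          rw [ht]
          exact Nat.mul_le_mul_left g (by omega)
        have h7 : Nat.log X (g * X) = Nat.log X g + 1 := Nat.log_mul_base (by omega) (by omega)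
        have h8 : Nat.log X (g * X) ≤ Nat.log X (ordZ Zev h x) := Nat.log_mono_right h6
        have h9 : Nat.log X (ordZ (Zn F) h x) ≤ Nat.log X g := Nat.log_mono_right h4
        omega
    have hsum : U.card + ∑ a ∈ A, phi X h (ordZ (Zn F) h a) ≤ ∑ a ∈ A, phi X h (ordZ (Zn ∅) h a) := by
      have h1 : U.card = ∑ a ∈ A, if a ∈ U then 1 else 0 := by
        rw [← Finset.card_filter]
        congr 1
        ext a
        simp only [mem_filter]
        constructor
        · intro ha; exact ⟨hUA ha, ha⟩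
        · intro ha; exact ha.2
      rw [h1, ← Finset.sum_add_distrib]
      apply Finset.sum_le_sum
      intro a _
      split_ifs with h3
      · have := hkey a h3
        omega
      · have := phi_mono (hn F) X h a
        omega
    have h1 := harg F hF
    have h2 : sep A (Zn F) ≤ sep A (Zn ∅) := sep_mono (hn F)
    unfold Phi at h1
    omega
  refine ⟨B1, B, hBB0.trans hB01, hB1A, hcard, ?_, ?_, ?_, hdep⟩
  · -- maximality
    intro a ha
    by_contra hcon
    push Not at hcon
    have ha0 : a ∉ Zev := by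
      have := hcon 0 (Or.inr rfl)
      simpa using this
    have haB : a ∉ B1 := by
      intro hc
      have h1 := hcon a (Or.inl hc)
      rw [sub_self] at h1
      exact h1 h0
    have hsep' : Sep Zev (insert a B1) := by
      constructor
      · intro b hb
        rcases mem_insert.mp hb with h1 | h1
        · rw [h1]; exact ha0
        · exact hB1sep.1 b h1
      · intro b hb b' hb' hne
        rcases mem_insert.mp hb with h1 | h1
        · rcases mem_insert.mp hb' with h2 | h2
          · exact absurd (h1.trans h2.symm) hne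
          · rw [h1]; exact hcon b' (Or.inl h2)
        · rcases mem_insert.mp hb' with h2 | h2
          · intro hc
            rw [h2] at hc
            have h3 := hneg _ hc
            rw [neg_sub] at h3
            exact hcon b (Or.inl h1) h3
          · exact hB1sep.2 b h1 b' h2 hne
    have h1 := hB1max (insert a B1) ⟨insert_subset ha hB1A, hB01.trans (subset_insert _ _), hsep'⟩
    rw [card_insert_of_notMem haB] at h1
    omega
  · intro b hb j hj hjT
    have h1 := hdep ∅ (empty_subset _)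
    simp only [card_empty, mul_zero, Nat.le_zero, card_eq_zero] at h1
    by_contra hcon
    have : b ∈ dep B (fun b => N • b) (ordZ Zev h) h TT ∅ := by
      unfold dep
      rw [mem_filter]
      refine ⟨hb, fun _ => j, ?_, ?_, hcon⟩
      · intro b' _; exact hj
      · simpa using hjT
    rw [h1] at this
    simp at this
  · intro b hb b' hb' hne j hj1 hj2 hjT
    exact hB0sep.2 b (hBB0 hb) b' (hBB0 hb') hne (hdiv j hj1 hj2 _ hjT)

end Pool.Agent.W246.LG
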