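import Pool.Agent.W246.LG.Defs

set_option autoImplicit false

namespace Pool.Agent.W246.LG

open Finset

section Ord

variable {G : Type} [AddCommGroup G]

/-- least `m ∈ [1,h]` with `m • a ∈ Z`, or `0` if there is none -/
noncomputable def ordZ (Z : Set G) (h : ℕ) (a : G) : ℕ :=
  sInf {m : ℕ | 1 ≤ m ∧ m ≤ h ∧ m • a ∈ Z}

/-- potential of an order -/
def phi (X h o : ℕ) : ℕ := if o = 0 then Nat.log X h + 1 else Nat.log X o

theorem ordZ_spec {Z : Set G} {h : ℕ} {a : G} (ho : ordZ Z h a ≠ 0) :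
    1 ≤ ordZ Z h a ∧ ordZ Z h a ≤ h ∧ ordZ Z h a • a ∈ Z := by
  have hne : {m : ℕ | 1 ≤ m ∧ m ≤ h ∧ m • a ∈ Z}.Nonempty := by
    by_contra hcon
    rw [Set.not_nonempty_iff_eq_empty] at hcon
    exact ho (by rw [ordZ, hcon, Nat.sInf_empty])
  exact Nat.sInf_mem hne

theorem ordZ_le {Z : Set G} {h m : ℕ} {a : G} (h1 : 1 ≤ m) (h2 : m ≤ h) (h3 : m • a ∈ Z) :
    ordZ Z h a ≤ m ∧ ordZ Z h a ≠ 0 := by
  have hmem : m ∈ {m : ℕ | 1 ≤ m ∧ m ≤ h ∧ m • a ∈ Z} := ⟨h1, h2, h3⟩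
  have h4 : 1 ≤ ordZ Z h a := (Nat.sInf_mem ⟨m, hmem⟩).1
  exact ⟨Nat.sInf_le hmem, by omega⟩

theorem phi_le (X h o : ℕ) (ho : o ≤ h) : phi X h o ≤ Nat.log X h + 1 := by
  unfold phi
  split_ifs
  · exact le_rfl
  · exact (Nat.log_mono_right ho).trans (Nat.le_succ _)

theorem phi_ordZ_le (X h : ℕ) (Z : Set G) (a : G) : phi X h (ordZ Z h a) ≤ Nat.log X h + 1 := by
  by_cases h0 : ordZ Z h a = 0
  · rw [h0]; exact phi_le X h 0 (Nat.zero_le _)
  · exact phi_le X h _ (ordZ_spec h0).2.1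

theorem phi_mono {Z Z' : Set G} (hZ : Z ⊆ Z') (X h : ℕ) (a : G) :
    phi X h (ordZ Z' h a) ≤ phi X h (ordZ Z h a) := by
  by_cases h0 : ordZ Z h a = 0
  · refine (phi_ordZ_le X h Z' a).trans ?_
    rw [h0]; simp [phi]
  · obtain ⟨h1, h2, h3⟩ := ordZ_spec h0
    obtain ⟨h4, h5⟩ := ordZ_le h1 h2 (hZ h3)
    rw [phi, if_neg h5, phi, if_neg h0]
    exact Nat.log_mono_right h4

/-- separated subsets -/
def Sep (Z : Set G) (B : Finset G) : Prop :=
  (∀ b ∈ B, b ∉ Z) ∧ ∀ b ∈ B, ∀ b' ∈ B, b ≠ b' → b - b' ∉ Z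

open Classical in
noncomputable def sep (A : Finset G) (Z : Set G) : ℕ :=
  (A.powerset.filter (fun B => Sep Z B)).sup Finset.card

theorem Sep.mono {Z Z' : Set G} (hZ : Z ⊆ Z') {B : Finset G} (h : Sep Z' B) : Sep Z B :=
  ⟨fun b hb hc => h.1 b hb (hZ hc), fun b hb b' hb' hne hc => h.2 b hb b' hb' hne (hZ hc)⟩

theorem Sep.empty (Z : Set G) : Sep Z (∅ : Finset G) := by
  constructor <;> intro b hb <;> simp at hb

theorem card_le_sep {A : Finset G} {Z : Set G} {B : Finset G} (hB : B ⊆ A) (h : Sep Z B) :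
    B.card ≤ sep A Z := by
  classical
  exact Finset.le_sup (f := Finset.card) (by simp [hB, h])

theorem exists_sep (A : Finset G) (Z : Set G) : ∃ B ⊆ A, Sep Z B ∧ B.card = sep A Z := by
  classical
  have hne : (A.powerset.filter (fun B => Sep Z B)).Nonempty :=
    ⟨∅, by simp [Sep.empty]⟩
  obtain ⟨B, hB, hcard⟩ := Finset.exists_mem_eq_sup _ hne Finset.card
  simp only [mem_filter, mem_powerset] at hB
  exact ⟨B, hB.1, hB.2, by unfold sep; convert hcard.symm⟩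

theorem sep_mono {A : Finset G} {Z Z' : Set G} (hZ : Z ⊆ Z') : sep A Z' ≤ sep A Z := by
  obtain ⟨B, hB, h1, h2⟩ := exists_sep A Z'
  rw [← h2]
  exact card_le_sep hB (h1.mono hZ)

theorem sep_le_card (A : Finset G) (Z : Set G) : sep A Z ≤ A.card := by
  obtain ⟨B, hB, h1, h2⟩ := exists_sep A Z
  rw [← h2]
  exact card_le_card hB

/-- the potential -/
noncomputable def Phi (A : Finset G) (X h : ℕ) (Z : Set G) : ℕ :=
  sep A Z + ∑ a ∈ A, phi X h (ordZ Z h a)

theorem Phi_mono {A : Finset G} {X h : ℕ} {Z Z' : Set G} (hZ : Z ⊆ Z') :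
    Phi A X h Z' ≤ Phi A X h Z :=
  Nat.add_le_add (sep_mono hZ) (Finset.sum_le_sum fun a _ => phi_mono hZ X h a)

theorem Phi_le (A : Finset G) (X h : ℕ) (Z : Set G) :
    Phi A X h Z ≤ A.card * (Nat.log X h + 2) := by
  unfold Phi
  have h1 := sep_le_card A Z
  have h2 : ∑ a ∈ A, phi X h (ordZ Z h a) ≤ ∑ _a ∈ A, (Nat.log X h + 1) :=
    Finset.sum_le_sum fun a _ => phi_ordZ_le X h Z a
  rw [Finset.sum_const, smul_eq_mul] at h2
  calc _ ≤ A.card + A.card * (Nat.log X h + 1) := Nat.add_le_add h1 h2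
    _ = _ := by ring

end Ord

section Rough

variable {G : Type} [AddCommGroup G]

/-- the order of `a` is finite and has a prime factor `≤ z` -/
def NonRough (Z : Set G) (h z : ℕ) (a : G) : Prop :=
  ordZ Z h a ≠ 0 ∧ ∃ q, q.Prime ∧ q ≤ z ∧ q ∣ ordZ Z h a

theorem nonrough_drop {Z Z' : Set G} {h z : ℕ} {a : G}
    (hdiv : ∀ m : ℕ, 1 ≤ m → m ≤ z → ∀ g : G, m • g ∈ Z → g ∈ Z')
    (hn : NonRough Z h z a) :
    phi 2 h (ordZ Z' h a) + 1 ≤ phi 2 h (ordZ Z h a) := by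
  obtain ⟨h0, q, hq, hqz, hqd⟩ := hn
  obtain ⟨h1, h2, h3⟩ := ordZ_spec h0
  obtain ⟨t, ht⟩ := hqd
  have ht0 : t ≠ 0 := by
    rintro rfl
    simp at ht
    exact h0 ht
  have h4 : t • a ∈ Z' := by
    apply hdiv q hq.one_lt.le hqz
    rw [← mul_smul, ← ht]
    exact h3
  have hq2 := hq.two_le
  have hth : t ≤ h := by
    calc t ≤ q * t := Nat.le_mul_of_pos_left t (by omega)
      _ = ordZ Z h a := ht.symm
      _ ≤ h := h2
  obtain ⟨h5, h6⟩ := ordZ_le (by omega) hth h4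
  rw [phi, if_neg h6, phi, if_neg h0]
  have h7 : Nat.log 2 (ordZ Z' h a) ≤ Nat.log 2 t := Nat.log_mono_right h5
  have h8 : Nat.log 2 (t * 2) = Nat.log 2 t + 1 := Nat.log_mul_base (by norm_num) ht0
  have h9 : Nat.log 2 (t * 2) ≤ Nat.log 2 (ordZ Z h a) := by
    apply Nat.log_mono_right
    rw [ht, mul_comm]
    exact Nat.mul_le_mul_right t hq2
  omega

open Classical in
theorem rough_count {Z : ℕ → Set G} {h z : ℕ} (hmono : ∀ w, Z w ⊆ Z (w + 1))
    (hdiv : ∀ w, ∀ m : ℕ, 1 ≤ m → m ≤ z → ∀ g : G, m • g ∈ Z w → g ∈ Z (w + 1)) (a : G) (W : ℕ) :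
    ((range W).filter (fun w => NonRough (Z w) h z a)).card + phi 2 h (ordZ (Z W) h a) ≤
      phi 2 h (ordZ (Z 0) h a) := by
  induction W with
  | zero => simp
  | succ W ih =>
    rw [Finset.range_add_one, Finset.filter_insert]
    split_ifs with hn
    · rw [Finset.card_insert_of_notMem (by simp)]
      have := nonrough_drop (hdiv W) hn
      omega
    · have := phi_mono (hmono W) 2 h a
      omega

open Classical in
/-- some `w < W` has few non-rough elements -/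
theorem exists_rough {Z : ℕ → Set G} {h z : ℕ} (hmono : ∀ w, Z w ⊆ Z (w + 1))
    (hdiv : ∀ w, ∀ m : ℕ, 1 ≤ m → m ≤ z → ∀ g : G, m • g ∈ Z w → g ∈ Z (w + 1))
    (A : Finset G) (D : ℕ) (hD : 1 ≤ D) :
    ∃ w < D * (Nat.log 2 h + 1), D * (A.filter (fun a => NonRough (Z w) h z a)).card ≤ A.card := by
  by_contra hcon
  push Not at hcon
  set W := D * (Nat.log 2 h + 1) with hW
  have hWpos : 0 < W := by positivity
  have h1 : ∑ w ∈ range W, (A.filter (fun a => NonRough (Z w) h z a)).card =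
      ∑ a ∈ A, ((range W).filter (fun w => NonRough (Z w) h z a)).card := by
    simp only [Finset.card_filter]
    exact Finset.sum_comm
  have h2 : ∑ a ∈ A, ((range W).filter (fun w => NonRough (Z w) h z a)).card ≤
      ∑ _a ∈ A, (Nat.log 2 h + 1) := by
    apply Finset.sum_le_sum
    intro a _
    have h3 := rough_count (h := h) (z := z) hmono hdiv a W
    have h4 := phi_ordZ_le 2 h (Z 0) a
    omega
  have h5 : ∑ w ∈ range W, A.card < ∑ w ∈ range W,
      D * (A.filter (fun a => NonRough (Z w) h z a)).card := by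
    apply Finset.sum_lt_sum_of_nonempty
    · simpa using hWpos.ne'
    · intro w hw
      exact hcon w (Finset.mem_range.mp hw)
  rw [← Finset.mul_sum, h1, Finset.sum_const, Finset.card_range, smul_eq_mul] at h5
  rw [Finset.sum_const, smul_eq_mul] at h2
  have h6 : D * ∑ a ∈ A, ((range W).filter (fun w => NonRough (Z w) h z a)).card ≤
      D * (A.card * (Nat.log 2 h + 1)) := Nat.mul_le_mul_left D h2
  have h7 : W * A.card = D * (A.card * (Nat.log 2 h + 1)) := by rw [hW]; ring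
  omega

end Rough

end Pool.Agent.W246.LG
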