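import Pool.Agent.W246.LG.Good

set_option autoImplicit false

namespace Pool.Agent.W246.LG

open Finset

section BoxLemmas

variable {G ι : Type} [AddCommGroup G]

theorem Box_mono {Q Q' : Finset ι} {d : ι → G} {H H' : ι → ℕ} (hQ : Q ⊆ Q')
    (hH : ∀ q ∈ Q, H q ≤ H' q) : Box Q d H ⊆ Box Q' d H' := by
  classical
  rintro g ⟨m, hm, rfl⟩
  refine ⟨fun q => if q ∈ Q then m q else 0, ?_, ?_⟩
  · intro q hq
    dsimp only
    split_ifs with h
    · exact (hm q h).trans (by exact_mod_cast hH q h)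
    · simp
  · rw [← Finset.sum_subset hQ]
    · exact Finset.sum_congr rfl fun q hq => by simp only [if_pos hq]
    · intro q _ hq; simp only [if_neg hq, zero_smul]

theorem Box_zero {Q : Finset ι} {d : ι → G} {H : ι → ℕ} : (0 : G) ∈ Box Q d H :=
  ⟨fun _ => 0, by simp, by simp⟩

theorem Box_smul {Q : Finset ι} {d : ι → G} {H : ι → ℕ} {g : G} (hg : g ∈ Box Q d H) (n : ℤ)
    (c : ℕ) (hn : |n| ≤ (c : ℤ)) : n • g ∈ Box Q d (fun q => c * H q) := by
  obtain ⟨m, hm, rfl⟩ := hg
  refine ⟨fun q => n * m q, ?_, ?_⟩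
  · intro q hq
    rw [abs_mul]
    push_cast
    exact mul_le_mul hn (hm q hq) (abs_nonneg _) (by positivity)
  · rw [Finset.smul_sum]
    exact Finset.sum_congr rfl fun q _ => by rw [mul_smul]

theorem Box_nsmul {Q : Finset ι} {d : ι → G} {H : ι → ℕ} {g : G} (hg : g ∈ Box Q d H) (n c : ℕ)
    (hn : n ≤ c) : n • g ∈ Box Q d (fun q => c * H q) := by
  have h1 := Box_smul hg (n : ℤ) c (by simpa using hn)
  rwa [natCast_zsmul] at h1

theorem Box_add {Q : Finset ι} {d : ι → G} {H H' : ι → ℕ} {g g' : G} (hg : g ∈ Box Q d H)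
    (hg' : g' ∈ Box Q d H') : g + g' ∈ Box Q d (fun q => H q + H' q) := by
  obtain ⟨m, hm, rfl⟩ := hg
  obtain ⟨m', hm', rfl⟩ := hg'
  refine ⟨fun q => m q + m' q, ?_, ?_⟩
  · intro q hq
    push_cast
    exact (abs_add_le _ _).trans (add_le_add (hm q hq) (hm' q hq))
  · rw [← Finset.sum_add_distrib]
    exact Finset.sum_congr rfl fun q _ => by rw [add_smul]

theorem Box_neg {Q : Finset ι} {d : ι → G} {H : ι → ℕ} {g : G} (hg : g ∈ Box Q d H) :
    -g ∈ Box Q d H := by
  obtain ⟨m, hm, rfl⟩ := hg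
  refine ⟨fun q => - m q, fun q hq => by rw [abs_neg]; exact hm q hq, ?_⟩
  rw [← Finset.sum_neg_distrib]
  exact Finset.sum_congr rfl fun q _ => by rw [neg_smul]

theorem Box_sub {Q : Finset ι} {d : ι → G} {H H' : ι → ℕ} {g g' : G} (hg : g ∈ Box Q d H)
    (hg' : g' ∈ Box Q d H') : g - g' ∈ Box Q d (fun q => H q + H' q) := by
  rw [sub_eq_add_neg]; exact Box_add hg (Box_neg hg')

end BoxLemmas

section Pins

variable {G : Type} [AddCommGroup G]

open Classical in
/-- add the pins `(i, a, N • a)`, `a ∈ P` -/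
noncomputable def addP (i N : ℕ) (Q : Finset (ℕ × G × G)) (P : Finset G) : Finset (ℕ × G × G) :=
  Q ∪ P.image (fun a => (i, a, N • a))

/-- heights -/
def hgt (lam : ℕ → ℕ) (i c : ℕ) (q : ℕ × G × G) : ℕ := 2 ^ (8 ^ i * lam q.1 + c)

/-- kernel heights -/
def ker (lam : ℕ → ℕ) (i c κ : ℕ) (q : ℕ × G × G) : ℕ := 2 ^ (2 * (8 ^ i * lam q.1 + c) + κ)

theorem subset_addP (i N : ℕ) (Q : Finset (ℕ × G × G)) (P : Finset G) : Q ⊆ addP i N Q P := by
  classical
  unfold addP; exact subset_union_left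

theorem addP_mono (i N : ℕ) (Q : Finset (ℕ × G × G)) {P P' : Finset G} (h : P ⊆ P') :
    addP i N Q P ⊆ addP i N Q P' := by
  classical
  unfold addP
  exact union_subset_union_right (image_subset_image h)

theorem mem_addP {i N : ℕ} {Q : Finset (ℕ × G × G)} {P : Finset G} {q : ℕ × G × G}
    (h : q ∈ addP i N Q P) : q ∈ Q ∨ (q.1 = i ∧ q.2.1 ∈ P ∧ q.2.2 = N • q.2.1) := by
  classical
  unfold addP at h
  rw [mem_union, mem_image] at h
  rcases h with h | ⟨a, ha, rfl⟩
  · exact Or.inl h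
  · exact Or.inr ⟨rfl, ha, rfl⟩

/-- sums over new pins lie in the box -/
theorem pins_mem {i N : ℕ} {Q : Finset (ℕ × G × G)} {P F : Finset G} (hQ : ∀ q ∈ Q, q.1 < i)
    (hF : F ⊆ P) (c : G → ℤ) (K : ℕ) (hc : ∀ b ∈ F, |c b| ≤ (K : ℤ)) :
    ∑ b ∈ F, c b • (N • b) ∈ Box (addP i N Q P) (fun q => q.2.2)
      (fun q => if q.1 = i then K else 0) := by
  classical
  refine ⟨fun q => if q.1 = i ∧ q.2.1 ∈ F then c q.2.1 else 0, ?_, ?_⟩
  · intro q _
    dsimp only
    split_ifs with h1 h2 h3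
    · exact hc _ h1.2
    · exact absurd h1.1 h2
    · simp
    · simp
  · have h1 : P.image (fun a => (i, a, N • a)) ⊆ addP i N Q P := by
      unfold addP; exact subset_union_right
    rw [← Finset.sum_subset h1]
    · rw [Finset.sum_image]
      · rw [← Finset.sum_subset hF]
        · apply Finset.sum_congr rfl
          intro b hb
          simp [hb]
        · intro b _ hb
          simp [hb]
      · intro a _ b _ hab
        simpa using congrArg (fun q : ℕ × G × G => q.2.1) hab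
    · intro q hq hq'
      have h2 : q ∈ Q := by
        unfold addP at hq
        rcases mem_union.mp hq with h | h
        · exact h
        · exact absurd h hq'
      have h3 := hQ q h2
      have h4 : ¬ (q.1 = i ∧ q.2.1 ∈ F) := fun h => by omega
      simp only [if_neg h4, zero_smul]

/-- the set at stage `i` -/
def Zst (lam : ℕ → ℕ) (i N : ℕ) (Q : Finset (ℕ × G × G)) (P : Finset G) : Set G :=
  {g | N • g ∈ Box (addP i N Q P) (fun q => q.2.2) (hgt lam i 0)}

theorem cost_addP (f : ℕ → ℕ) (i N : ℕ) (Q : Finset (ℕ × G × G)) (P : Finset G) :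
    ∑ q ∈ addP i N Q P, f q.1 ≤ ∑ q ∈ Q, f q.1 + f i * P.card := by
  classical
  unfold addP
  have h1 : ∑ q ∈ Q ∪ P.image (fun a => (i, a, N • a)), f q.1 ≤
      ∑ q ∈ Q, f q.1 + ∑ q ∈ P.image (fun a => (i, a, N • a)), f q.1 := by
    rw [← Finset.sum_union_inter]
    exact Nat.le_add_right _ _
  refine h1.trans (Nat.add_le_add_left ?_ _)
  have h2 : ∑ q ∈ P.image (fun a => (i, a, N • a)), f q.1 = ∑ q ∈ P.image (fun a => (i, a, N • a)), f i := by
    apply Finset.sum_congr rfl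
    intro q hq
    obtain ⟨a, _, rfl⟩ := mem_image.mp hq
    rfl
  rw [h2, Finset.sum_const, smul_eq_mul, mul_comm]
  exact Nat.mul_le_mul_left _ card_image_le

end Pins

end Pool.Agent.W246.LG
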