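import Pool.Agent.W246.LG.Stage

set_option autoImplicit false

namespace Pool.Agent.W246.LG

open Finset

/-- the parameters of the stage argument -/
structure Par where
  lam : ℕ → ℕ
  zz : ℕ → ℕ
  u : ℕ → ℕ
  W : ℕ
  κ : ℕ
  Cs : ℕ
  V : ℕ
  D : ℕ
  J : ℕ
  X : ℕ
  h : ℕ
  k : ℕ

structure Par.Ok (π : Par) (p : ℕ) : Prop where
  hD : 1 ≤ π.D
  hW : π.W = π.D * (Nat.log 2 π.h + 1)
  hWu : ∀ i ≤ π.V, ∀ j ≤ i, π.W * π.u i ≤ π.lam j
  hfac : ∀ i ≤ π.V, (π.zz i).factorial ≤ 2 ^ π.u i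
  hz : ∀ i ≤ π.V, (((π.zz i).factorial : ℕ) : ZMod p) ≠ 0
  hκ : ∀ j ≤ π.V, π.κ + 1 ≤ π.lam j
  hh : π.h ≤ 2 ^ π.κ
  hX : 2 ≤ π.X
  hXz : ∀ i ≤ π.V, π.X ≤ π.zz i
  hJ : Nat.log π.X π.h ≤ π.J
  hV : π.D * (π.J + 2) < π.V
  hk : 1 ≤ π.k

section Num

theorem num1 (c U i l w u : ℕ) (hc : c ≤ 2 ^ U) (hU : U ≤ u) :
    c * 2 ^ (8 ^ i * l + w * u) ≤ 2 ^ (8 ^ i * l + (w + 1) * u) := by
  calc c * 2 ^ (8 ^ i * l + w * u) ≤ 2 ^ U * 2 ^ (8 ^ i * l + w * u) := Nat.mul_le_mul_right _ hc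
    _ = 2 ^ (U + (8 ^ i * l + w * u)) := by rw [← pow_add]
    _ ≤ _ := by
      apply Nat.pow_le_pow_right (by norm_num)
      rw [add_mul]
      omega

theorem num2 (c i l w u W : ℕ) (hc : c ≤ 2 ^ u) (hw : w < W) (hWu : W * u ≤ l) :
    c * 2 ^ (8 ^ i * l + w * u) ≤ 2 ^ (8 ^ (i + 1) * l + 0) := by
  refine (num1 c u i l w u hc le_rfl).trans ?_
  apply Nat.pow_le_pow_right (by norm_num)
  have h1 : (w + 1) * u ≤ l := (Nat.mul_le_mul_right u hw).trans hWu
  have h2 : l ≤ 8 ^ i * l := Nat.le_mul_of_pos_left l (by positivity)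
  have h3 : 8 ^ (i + 1) * l = 8 * (8 ^ i * l) := by rw [pow_succ]; ring
  omega

theorem num3 (c i l w u W κ : ℕ) (hc : c ≤ 2 ^ u) (hw : w < W) (hWu : W * u ≤ l)
    (hκ : κ + 1 ≤ l) :
    c * (2 * 2 ^ (2 * (8 ^ i * l + w * u) + κ)) ≤ 2 ^ (8 ^ (i + 1) * l + 0) := by
  calc c * (2 * 2 ^ (2 * (8 ^ i * l + w * u) + κ)) ≤
      2 ^ u * (2 * 2 ^ (2 * (8 ^ i * l + w * u) + κ)) := Nat.mul_le_mul_right _ hc
    _ = 2 ^ (u + 1 + (2 * (8 ^ i * l + w * u) + κ)) := by rw [pow_add, pow_add]; ring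
    _ ≤ _ := by
      apply Nat.pow_le_pow_right (by norm_num)
      have h1 : (w + 1) * u ≤ l := (Nat.mul_le_mul_right u hw).trans hWu
      rw [add_mul] at h1
      have h2 : l ≤ 8 ^ i * l := Nat.le_mul_of_pos_left l (by positivity)
      have h3 : 8 ^ (i + 1) * l = 8 * (8 ^ i * l) := by rw [pow_succ]; ring
      omega

theorem num4 (c h i l w u W κ : ℕ) (hc : c ≤ 2 ^ u) (hw : w < W) (hWu : W * u ≤ l)
    (hκ : κ + 1 ≤ l) (hh : h ≤ 2 ^ κ) :
    c * (h * 2 ^ (8 ^ i * l + w * u) + h * (2 * 2 ^ (2 * (8 ^ i * l + w * u) + κ))) ≤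
      2 ^ (8 ^ (i + 1) * l + 0) := by
  set e := 8 ^ i * l + w * u with he
  have h0 : 2 ^ e ≤ 2 ^ (2 * e + κ) := Nat.pow_le_pow_right (by norm_num) (by omega)
  calc c * (h * 2 ^ e + h * (2 * 2 ^ (2 * e + κ))) ≤
      2 ^ u * (2 ^ κ * 2 ^ (2 * e + κ) + 2 ^ κ * (2 * 2 ^ (2 * e + κ))) := by
        apply Nat.mul_le_mul hc
        apply Nat.add_le_add
        · exact Nat.mul_le_mul hh h0
        · exact Nat.mul_le_mul_right _ hh
    _ ≤ 2 ^ u * (4 * (2 ^ κ * 2 ^ (2 * e + κ))) := by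
        apply Nat.mul_le_mul_left
        have : 0 ≤ 2 ^ κ * 2 ^ (2 * e + κ) := Nat.zero_le _
        nlinarith
    _ = 2 ^ (u + 2 + κ + (2 * e + κ)) := by
        rw [pow_add, pow_add, pow_add]; ring
    _ ≤ _ := by
      apply Nat.pow_le_pow_right (by norm_num)
      have h1 : (w + 1) * u ≤ l := (Nat.mul_le_mul_right u hw).trans hWu
      rw [add_mul] at h1
      have h2 : l ≤ 8 ^ i * l := Nat.le_mul_of_pos_left l (by positivity)
      have h3 : 8 ^ (i + 1) * l = 8 * (8 ^ i * l) := by rw [pow_succ]; ring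
      omega

end Num

variable {p : ℕ} [Fact p.Prime]

/-- the invariant before stage `i` -/
def Inv (π : Par) (A : Finset (ZMod p)) (i : ℕ) : Prop :=
  ∃ (N : ℕ) (Q : Finset (ℕ × ZMod p × ZMod p)) (P : Finset (ZMod p)),
    (N : ZMod p) ≠ 0 ∧ P ⊆ A ∧ (∀ q ∈ Q, q.1 < i) ∧
    (∑ q ∈ Q, π.Cs * π.lam q.1 ≤ i * (π.J + 2) * π.k) ∧
    (∀ P' ⊆ A, Phi A π.X π.h (Zst π.lam i N Q P) + π.Cs * π.lam i * P.card ≤
      Phi A π.X π.h (Zst π.lam i N Q P') + π.Cs * π.lam i * P'.card) ∧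
    π.D * Phi A π.X π.h (Zst π.lam i N Q P) + i * π.k ≤ π.D * (π.J + 2) * π.k

/-- the result of a good stage -/
def Res (π : Par) (A : Finset (ZMod p)) : Prop :=
  ∃ (i w N : ℕ) (Q : Finset (ℕ × ZMod p × ZMod p)) (B1 B : Finset (ZMod p)) (o : ZMod p → ℕ),
    i < π.V ∧ w < π.W ∧ (N : ZMod p) ≠ 0 ∧ (∀ q ∈ Q, q.1 ≤ i) ∧
    (∑ q ∈ Q, π.Cs * π.lam q.1 ≤ (i + 1) * (π.J + 2) * π.k) ∧
    B ⊆ B1 ∧ B1 ⊆ A ∧ π.D * (B1 \ B).card ≤ 2 * π.k ∧
    (∀ a ∈ A, ∃ b, (b ∈ B1 ∨ b = 0) ∧ N • (a - b) ∈ Box Q (fun q => q.2.2)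
      (hgt π.lam i (w * π.u i))) ∧
    (∀ b ∈ B, ∀ j : ℤ, |j| ≤ (π.h : ℤ) → (o b : ℤ) ∣ j →
      j • (N • b) ∈ Box Q (fun q => q.2.2) (fun q => π.h * hgt π.lam i (w * π.u i) q)) ∧
    (∀ b ∈ B, ∀ j : ℤ, |j| ≤ (π.h : ℤ) →
      j • (N • b) ∈ Box Q (fun q => q.2.2) (fun q => 2 * ker π.lam i (w * π.u i) π.κ q) →
        (o b : ℤ) ∣ j) ∧
    (∀ b ∈ B, ∀ b' ∈ B, b ≠ b' → ∀ j : ℕ, 1 ≤ j → j ≤ π.zz i →
      j • (N • (b - b')) ∉ Box Q (fun q => q.2.2) (fun q => 2 * ker π.lam i (w * π.u i) π.κ q)) ∧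
    (∀ F ⊆ A, (dep B (fun b => N • b) o π.h
      (Box Q (fun q => q.2.2) (fun q => 2 * ker π.lam i (w * π.u i) π.κ q)) F).card ≤
        π.Cs * π.lam (i + 1) * F.card)

theorem exists_argmin (π : Par) (A : Finset (ZMod p)) (i N : ℕ)
    (Q : Finset (ℕ × ZMod p × ZMod p)) :
    ∃ P ⊆ A, ∀ P' ⊆ A, Phi A π.X π.h (Zst π.lam i N Q P) + π.Cs * π.lam i * P.card ≤
      Phi A π.X π.h (Zst π.lam i N Q P') + π.Cs * π.lam i * P'.card := by
  obtain ⟨P, hP, hmin⟩ := Finset.exists_min_image A.powerset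
    (fun P => Phi A π.X π.h (Zst π.lam i N Q P) + π.Cs * π.lam i * P.card) ⟨∅, by simp⟩
  exact ⟨P, mem_powerset.mp hP, fun P' hP' => hmin P' (mem_powerset.mpr hP')⟩

theorem Phi_bd (π : Par) (hπ : π.Ok p) (A : Finset (ZMod p)) (hA : A.card = π.k)
    (Z : Set (ZMod p)) : Phi A π.X π.h Z ≤ (π.J + 2) * π.k := by
  refine (Phi_le A π.X π.h Z).trans ?_
  rw [hA, mul_comm]
  exact Nat.mul_le_mul_right _ (by have := hπ.hJ; omega)

theorem inv_zero (π : Par) (hπ : π.Ok p) (A : Finset (ZMod p)) (hA : A.card = π.k) :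
    Inv π A 0 := by
  obtain ⟨P, hP, hmin⟩ := exists_argmin π A 0 1 ∅
  refine ⟨1, ∅, P, by simp, hP, by simp, by simp, hmin, ?_⟩
  have := Phi_bd π hπ A hA (Zst π.lam 0 1 ∅ P)
  rw [zero_mul, add_zero, mul_assoc]
  exact Nat.mul_le_mul_left _ this

theorem step (π : Par) (hπ : π.Ok p) (A : Finset (ZMod p)) (hA : A.card = π.k) (i : ℕ)
    (hi : i < π.V) (hI : Inv π A i) : Inv π A (i + 1) ∨ Res π A := by
  classical
  obtain ⟨N, Q, P, hN, hPA, hQ, hcost, hmin, hpot⟩ := hI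
  set Q' := addP i N Q P with hQ'
  have hQ'le : ∀ q ∈ Q', q.1 ≤ i := by
    intro q hq
    rcases mem_addP hq with h | h
    · exact (hQ q h).le
    · exact h.1.le
  set Ni := (π.zz i).factorial with hNi
  set u := π.u i with hu
  have hNi2 : Ni ≤ 2 ^ u := hπ.hfac i hi.le
  have hNip : (Ni : ZMod p) ≠ 0 := hπ.hz i hi.le
  have hWu : ∀ q ∈ Q', π.W * u ≤ π.lam q.1 := fun q hq => hπ.hWu i hi.le q.1 (hQ'le q hq)
  have hκ : ∀ q ∈ Q', π.κ + 1 ≤ π.lam q.1 := fun q hq => hπ.hκ q.1 ((hQ'le q hq).trans hi.le)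
  -- the chain
  set Zw : ℕ → Set (ZMod p) := fun w =>
    {g | (N * Ni ^ w) • g ∈ Box Q' (fun q => q.2.2) (hgt π.lam i (w * u))} with hZw
  have hZw0 : Zst π.lam i N Q P = Zw 0 := by
    simp [hZw, Zst, hQ']
  have hZwmono : ∀ w, Zw w ⊆ Zw (w+1) := by
    intro w g hg
    simp only [hZw, Set.mem_ofPred_eq] at hg ⊢
    have h1 := Box_nsmul hg Ni Ni le_rfl
    rw [← mul_smul] at h1
    have h2 : N * Ni ^ (w+1) = Ni * (N * Ni ^ w) := by rw [pow_succ]; ring
    rw [h2]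
    refine Box_mono (Subset.refl _) ?_ h1
    intro q hq
    exact num1 Ni u i (π.lam q.1) w u hNi2 le_rfl
  have hZwdiv : ∀ w, ∀ m : ℕ, 1 ≤ m → m ≤ π.zz i → ∀ g : ZMod p,
      m • g ∈ Zw w → g ∈ Zw (w+1) := by
    intro w m hm1 hm2 g hg
    simp only [hZw, Set.mem_ofPred_eq] at hg ⊢
    obtain ⟨t, ht⟩ : m ∣ Ni := Nat.dvd_factorial (by omega) hm2
    have ht2 : t ≤ Ni := by rw [ht]; exact Nat.le_mul_of_pos_left t (by omega)
    have h1 := Box_nsmul hg t Ni ht2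
    rw [← mul_smul, ← mul_smul] at h1
    have h2 : N * Ni ^ (w+1) = t * (N * Ni ^ w) * m := by
      rw [pow_succ]
      calc N * (Ni ^ w * Ni) = N * (Ni ^ w) * (m * t) := by rw [← ht]; ring
        _ = _ := by ring
    rw [h2]
    refine Box_mono (Subset.refl _) ?_ h1
    intro q hq
    exact num1 Ni u i (π.lam q.1) w u hNi2 le_rfl
  obtain ⟨w, hw, hrough⟩ := exists_rough (Z := Zw) (h := π.h) (z := π.zz i) hZwmono hZwdiv A π.D
    hπ.hD
  rw [← hπ.hW] at hw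
  rw [hA] at hrough
  have hZ0w : Zw 0 ⊆ Zw w := monotone_nat_of_le_succ hZwmono (Nat.zero_le w)
  set Nev := N * Ni ^ w with hNev
  set N' := N * Ni ^ (w + 1) with hN'
  have hN'ev : N' = Ni * Nev := by rw [hN', hNev, pow_succ]; ring
  have hNevp : (Nev : ZMod p) ≠ 0 := by
    rw [hNev]; push_cast; exact mul_ne_zero hN (pow_ne_zero _ hNip)
  have hN'p : (N' : ZMod p) ≠ 0 := by
    rw [hN']; push_cast; exact mul_ne_zero hN (pow_ne_zero _ hNip)
  have hcost' : ∑ q ∈ Q', π.Cs * π.lam q.1 ≤ (i + 1) * (π.J + 2) * π.k := by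
    have h1 := cost_addP (fun j => π.Cs * π.lam j) i N Q P
    have h2 := hmin ∅ (empty_subset _)
    have h3 := Phi_bd π hπ A hA (Zst π.lam i N Q ∅)
    simp only [card_empty, mul_zero, add_zero] at h2
    have h4 : π.Cs * π.lam i * P.card ≤ (π.J + 2) * π.k := by omega
    calc _ ≤ _ := h1
      _ ≤ i * (π.J + 2) * π.k + (π.J + 2) * π.k := Nat.add_le_add hcost h4
      _ = _ := by ring
  obtain ⟨P', hP'A, hmin'⟩ := exists_argmin π A (i + 1) N' Q'
  by_cases hcase : π.D * Phi A π.X π.h (Zst π.lam (i + 1) N' Q' P') + π.k ≤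
      π.D * Phi A π.X π.h (Zst π.lam i N Q P)
  · left
    refine ⟨N', Q', P', hN'p, hP'A, fun q hq => Nat.lt_succ_of_le (hQ'le q hq), hcost', hmin', ?_⟩
    have h5 : (i + 1) * π.k = i * π.k + π.k := by ring
    omega
  · right
    push Not at hcase
    set TT := Box Q' (fun q => q.2.2) (fun q => 2 * ker π.lam i (w * u) π.κ q) with hTT
    set Zn : Finset (ZMod p) → Set (ZMod p) := fun F => Zst π.lam (i + 1) N' Q' (P' ∪ F) with hZn
    have hZn0 : Zn ∅ = Zst π.lam (i + 1) N' Q' P' := by simp [hZn]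
    have hnum2 : ∀ q ∈ Q', Ni * hgt π.lam i (w * u) q ≤ hgt π.lam (i + 1) 0 q := fun q hq =>
      num2 Ni i (π.lam q.1) w u π.W hNi2 hw (hWu q hq)
    have hnum3 : ∀ q ∈ Q', Ni * (2 * ker π.lam i (w * u) π.κ q) ≤ hgt π.lam (i + 1) 0 q := fun q hq =>
      num3 Ni i (π.lam q.1) w u π.W π.κ hNi2 hw (hWu q hq) (hκ q hq)
    have hnum4 : ∀ q ∈ Q', Ni * (π.h * hgt π.lam i (w * u) q +
        π.h * (2 * ker π.lam i (w * u) π.κ q)) ≤ hgt π.lam (i + 1) 0 q := fun q hq =>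
      num4 Ni π.h i (π.lam q.1) w u π.W π.κ hNi2 hw (hWu q hq) (hκ q hq) hπ.hh
    have hev : Zw w ⊆ Zn ∅ := by
      rw [hZn0]
      intro g hg
      simp only [hZw, Set.mem_ofPred_eq] at hg
      have h1 := Box_nsmul hg Ni Ni le_rfl
      rw [← mul_smul, ← hN'ev] at h1
      exact Box_mono (subset_addP _ _ _ _) hnum2 h1
    have hnn : ∀ F, Zn ∅ ⊆ Zn F := by
      intro F g hg
      exact Box_mono (addP_mono _ _ _ (union_subset_union_right (empty_subset F)))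
        (fun q _ => le_rfl) hg
    have hneg : ∀ g ∈ Zw w, -g ∈ Zw w := by
      intro g hg
      simp only [hZw, Set.mem_ofPred_eq] at hg ⊢
      rw [smul_neg]
      exact Box_neg hg
    have h0 : (0 : ZMod p) ∈ Zw w := by
      simp only [hZw, Set.mem_ofPred_eq, smul_zero]
      exact Box_zero
    have hdivT : ∀ m : ℕ, 1 ≤ m → m ≤ π.zz i → ∀ g : ZMod p, m • (Nev • g) ∈ TT → g ∈ Zn ∅ := by
      intro m hm1 hm2 g hg
      rw [hZn0]
      obtain ⟨t, ht⟩ : m ∣ Ni := Nat.dvd_factorial (by omega) hm2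
      have ht2 : t ≤ Ni := by rw [ht]; exact Nat.le_mul_of_pos_left t (by omega)
      have h1 := Box_nsmul hg t Ni ht2
      rw [← mul_smul, ← mul_smul] at h1
      have h2 : N' = t * m * Nev := by rw [hN'ev, ht]; ring
      rw [← h2] at h1
      exact Box_mono (subset_addP _ _ _ _) hnum3 h1
    have hrel : ∀ F ⊆ A, ∀ x ∈ A, ∀ m : ZMod p → ℤ, (∀ b ∈ insert x F, |m b| ≤ (π.h : ℤ)) →
      ∑ b ∈ insert x F, m b • (Nev • b) ∈ TT → ∀ o : ℕ, (o = 0 ∨ (o ≤ π.h ∧ o • x ∈ Zw w)) →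
      ∀ α β : ℤ, |α| ≤ (π.h : ℤ) → |β| ≤ (π.h : ℤ) → ∀ g : ℕ, (g : ℤ) = α * o + β * m x →
      g • x ∈ Zn F := by
      intro F hF x hx m hm1 hm2 o ho α β hα hβ g hg
      -- the first part
      have hA1 : Nev • (o • x) ∈ Box Q' (fun q => q.2.2) (hgt π.lam i (w * u)) := by
        rcases ho with ho | ho
        · rw [ho, zero_smul, smul_zero]; exact Box_zero
        · exact ho.2
      have hA2 := Box_smul hA1 α π.h hα
      have hB1 := Box_smul hm2 β π.h hβ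
      have hC := Box_nsmul (Box_add hA2 hB1) Ni Ni le_rfl
      have hC' := Box_mono (H' := fun q => if q.1 = i + 1 then 0 else hgt π.lam (i + 1) 0 q)
        (subset_addP (i + 1) N' Q' (P' ∪ F)) (by
          intro q hq
          have h1 := hQ'le q hq
          rw [if_neg (by omega)]
          exact hnum4 q hq) hC
      have hpin := pins_mem (i := i + 1) (N := N') (Q := Q') (P := P' ∪ F) (F := F.erase x)
        (fun q hq => Nat.lt_succ_of_le (hQ'le q hq))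
        ((erase_subset x F).trans subset_union_right) (fun b => β * m b) (π.h * π.h) (by
          intro b hb
          rw [abs_mul]
          push_cast
          exact mul_le_mul hβ (hm1 b (mem_insert_of_mem (mem_of_mem_erase hb))) (abs_nonneg _)
            (by positivity))
      have hsum : ∑ b ∈ insert x F, m b • (Nev • b) =
          m x • (Nev • x) + ∑ b ∈ F.erase x, m b • (Nev • b) := by
        have h1 : insert x F = insert x (F.erase x) := by
          ext b; simp only [mem_insert, mem_erase]; tauto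
        rw [h1, Finset.sum_insert (notMem_erase x F)]
      have hsum2 : ∑ b ∈ F.erase x, (β * m b) • (N' • b) =
          β • (Ni • ∑ b ∈ F.erase x, m b • (Nev • b)) := by
        rw [Finset.smul_sum, Finset.smul_sum]
        apply Finset.sum_congr rfl
        intro b _
        rw [hN'ev]
        simp only [zsmul_eq_mul, nsmul_eq_mul]
        push_cast
        ring
      have hgc : (g : ZMod p) = (α : ZMod p) * (o : ZMod p) + (β : ZMod p) * (m x : ZMod p) := by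
        have := congrArg (Int.cast : ℤ → ZMod p) hg
        push_cast at this
        exact this
      have hkey : N' • (g • x) = Ni • (α • (Nev • (o • x)) + β • ∑ b ∈ insert x F, m b • (Nev • b)) -
          ∑ b ∈ F.erase x, (β * m b) • (N' • b) := by
        rw [hsum, hsum2, hN'ev]
        set S := ∑ b ∈ F.erase x, m b • (Nev • b)
        simp only [zsmul_eq_mul, nsmul_eq_mul]
        push_cast
        rw [hgc]
        ring
      have hmem := Box_sub hC' hpin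
      rw [← hkey] at hmem
      refine Box_mono (Subset.refl _) ?_ hmem
      intro q hq
      split_ifs with h1
      · rw [zero_add]
        unfold hgt
        calc π.h * π.h ≤ 2 ^ π.κ * 2 ^ π.κ := Nat.mul_le_mul hπ.hh hπ.hh
          _ = 2 ^ (π.κ + π.κ) := by rw [← pow_add]
          _ ≤ _ := by
            apply Nat.pow_le_pow_right (by norm_num)
            have h2 := hπ.hκ (i + 1) hi
            rw [h1]
            have h3 : 8 ^ (i + 1) = 8 * 8 ^ i := by rw [pow_succ]; ring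
            have h4 : 1 ≤ 8 ^ i := Nat.one_le_pow _ _ (by norm_num)
            have h5 : 2 * π.lam (i + 1) ≤ 8 ^ (i + 1) * π.lam (i + 1) :=
              Nat.mul_le_mul_right _ (by omega)
            omega
      · simp
    have harg : ∀ F ⊆ A, Phi A π.X π.h (Zn ∅) ≤ Phi A π.X π.h (Zn F) +
        π.Cs * π.lam (i + 1) * F.card := by
      intro F hF
      have h1 := hmin' (P' ∪ F) (union_subset hP'A hF)
      have h2 : (P' ∪ F).card ≤ P'.card + F.card := card_union_le _ _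
      have h3 := Nat.mul_le_mul_left (π.Cs * π.lam (i + 1)) h2
      rw [mul_add] at h3
      rw [hZn0]
      have h4 : Zn F = Zst π.lam (i + 1) N' Q' (P' ∪ F) := rfl
      rw [h4]
      omega
    have hdrop : π.D * Phi A π.X π.h (Zst π.lam i N Q P) ≤ π.D * Phi A π.X π.h (Zn ∅) + π.k := by
      rw [hZn0]; omega
    obtain ⟨B1, B, hB1, hB2, hB3, hB4, hB5, hB6, hB7⟩ := good_extract A π.h π.X (π.zz i)
      (π.Cs * π.lam (i + 1)) π.k π.D Nev (Zst π.lam i N Q P) (Zw w) TT Zn hπ.hX (hπ.hXz i hi.le)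
      (by rw [hZw0]; exact hZ0w) hev hnn h0 hneg hdivT
      (by
        intro F hF x hx m hm1 hm2
        exact hrel F hF x hx m (by convert hm1) (by convert hm2)) harg hdrop hrough
    refine ⟨i, w, Nev, Q', B1, B, ordZ (Zw w) π.h, hi, hw, hNevp, hQ'le, hcost', hB1, hB2,
      by convert hB3, ?_, ?_, hB5, hB6, hB7⟩
    · intro a ha
      obtain ⟨b, hb, hb'⟩ := hB4 a ha
      exact ⟨b, hb, hb'⟩
    · intro b hb j hj hdvd
      by_cases ho : ordZ (Zw w) π.h b = 0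
      · rw [ho] at hdvd
        have : j = 0 := by simpa using hdvd
        rw [this, zero_smul]
        exact Box_zero
      · obtain ⟨h1, h2, h3⟩ := ordZ_spec ho
        obtain ⟨t, ht⟩ := hdvd
        have ht' : |t| ≤ (π.h : ℤ) := by
          refine le_trans ?_ hj
          rw [ht, abs_mul]
          have h4 : (1 : ℤ) ≤ |((ordZ (Zw w) π.h b : ℕ) : ℤ)| := by
            rw [abs_of_nonneg (by positivity)]; exact_mod_cast h1
          nlinarith [abs_nonneg t]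
        have h5 : Nev • (ordZ (Zw w) π.h b • b) ∈ Box Q' (fun q => q.2.2) (hgt π.lam i (w * u)) := h3
        have h6 := Box_smul h5 t π.h ht'
        have h7 : j • (Nev • b) = t • (Nev • (ordZ (Zw w) π.h b • b)) := by
          rw [ht]
          simp only [zsmul_eq_mul, nsmul_eq_mul]
          push_cast
          ring
        rw [h7]
        exact h6

theorem res (π : Par) (hπ : π.Ok p) (A : Finset (ZMod p)) (hA : A.card = π.k) : Res π A := by
  have h1 : ∀ i ≤ π.V, Inv π A i ∨ Res π A := by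
    intro i
    induction i with
    | zero => intro _; exact Or.inl (inv_zero π hπ A hA)
    | succ i ih =>
      intro hi
      rcases ih (by omega) with h | h
      · exact step π hπ A hA i (by omega) h
      · exact Or.inr h
  rcases h1 π.V le_rfl with h | h
  · exfalso
    obtain ⟨N, Q, P, -, -, -, -, -, hpot⟩ := h
    have h2 : π.V * π.k ≤ π.D * (π.J + 2) * π.k := le_trans (Nat.le_add_left _ _) hpot
    have h3 : π.V ≤ π.D * (π.J + 2) := Nat.le_of_mul_le_mul_right h2 hπ.hk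
    have := hπ.hV
    omega
  · exact h

end Pool.Agent.W246.LG
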